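import Pool.Agent.Q284.IM.Hel

/-! Positive definite functions with integer values on an abelian group are finite sums of positive
definite functions with integer values, each of which is periodic with respect to a subgroup and has
finite support modulo this subgroup. -/

set_option autoImplicit false

namespace Pool.Agent.Q284.CP

open Filter Topology Pool.Agent.Q284.IM

/-- positive definite functions with integer values -/
structure PD {Λ : Type} [AddCommGroup Λ] (φ : Λ → ℤ) : Prop where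
  symm : ∀ a, φ (-a) = φ a
  nonneg : ∀ c : Λ →₀ ℝ, 0 ≤ frm (fun a b => (φ (a - b) : ℝ)) c c

section

variable {Λ : Type} [AddCommGroup Λ]

theorem frm_sum {ι : Type} {H : Type} [NormedAddCommGroup H] [InnerProductSpace ℝ H]
    {K : ι → ι → ℝ} {e : ι → H} (h : ∀ a b, inner ℝ (e a) (e b) = K a b) (c d : ι →₀ ℝ) :
    inner ℝ (c.sum fun a x => x • e a) (d.sum fun b y => y • e b) = frm K c d := by
  unfold frm Finsupp.sum
  rw [sum_inner]
  refine Finset.sum_congr rfl fun a _ => ?_
  rw [inner_sum]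
  refine Finset.sum_congr rfl fun b _ => ?_
  rw [real_inner_smul_left, real_inner_smul_right, h]
  ring

/-- a Hilbert space for the function -/
theorem PD.gns {φ : Λ → ℤ} (hφ : PD φ) :
    ∃ (H : Type) (_ : NormedAddCommGroup H) (_ : InnerProductSpace ℝ H) (_ : CompleteSpace H)
      (e : Λ → H), ∀ a b, inner ℝ (e a) (e b) = (φ (a - b) : ℝ) :=
  Pool.Agent.Q284.IM.gns _ (fun a b => by rw [← hφ.symm, neg_sub]) hφ.nonneg

theorem pd_of_inner {H : Type} [NormedAddCommGroup H] [InnerProductSpace ℝ H] {w : Λ → H}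
    {ψ : Λ → ℤ} (h : ∀ a b, inner ℝ (w a) (w b) = (ψ (a - b) : ℝ)) : PD ψ := by
  refine ⟨fun a => ?_, fun c => ?_⟩
  · have h1 := h 0 a
    have h2 := h a 0
    rw [real_inner_comm, h2, sub_zero, zero_sub] at h1
    exact_mod_cast h1.symm
  · rw [← frm_sum h]
    exact real_inner_self_nonneg

theorem PD.le {φ : Λ → ℤ} (hφ : PD φ) (a : Λ) : |φ a| ≤ φ 0 := by
  obtain ⟨H, _, _, _, e, he⟩ := hφ.gns
  have h1 := abs_real_inner_le_norm (e a) (e 0)
  have h2 : ∀ b, ‖e b‖ = Real.sqrt (φ 0) := fun b => by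
    rw [← Real.sqrt_sq (norm_nonneg (e b)), ← real_inner_self_eq_norm_sq, he, sub_self]
  have h3 : (0 : ℝ) ≤ φ 0 := by
    have := he 0 0
    rw [sub_self] at this
    rw [← this]
    exact real_inner_self_nonneg
  rw [he, sub_zero, h2, h2, Real.mul_self_sqrt h3] at h1
  exact_mod_cast h1

theorem PD.zero_le {φ : Λ → ℤ} (hφ : PD φ) : 0 ≤ φ 0 := (abs_nonneg _).trans (hφ.le 0)

theorem PD.finite {φ : Λ → ℤ} (hφ : PD φ) : (Set.range fun a => (φ a : ℝ)).Finite := by
  have h1 : (Set.range φ).Finite := (Set.finite_Icc (-φ 0) (φ 0)).subset (by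
    rintro _ ⟨a, rfl⟩
    exact abs_le.1 (hφ.le a))
  have h2 : (Set.range fun a => (φ a : ℝ)) = (fun n : ℤ => (n : ℝ)) '' Set.range φ := by
    rw [← Set.range_comp]
    rfl
  rw [h2]
  exact h1.image _

/-- the periods -/
theorem PD.periodic {φ : Λ → ℤ} (hφ : PD φ) {k : Λ} (hk : φ k = φ 0) (a : Λ) :
    φ (a + k) = φ a := by
  obtain ⟨H, _, _, _, e, he⟩ := hφ.gns
  have h1 : e (a + k) = e a := by
    have h2 : ‖e (a + k) - e a‖ ^ 2 = 0 := by
      rw [norm_sub_sq_real, ← real_inner_self_eq_norm_sq, ← real_inner_self_eq_norm_sq, he, he, he,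
        sub_self, sub_self, show a + k - a = k by abel, hk]
      ring
    exact sub_eq_zero.1 (norm_eq_zero.1 (pow_eq_zero_iff (two_ne_zero)|>.1 h2))
  have h3 := he (a + k) 0
  rw [h1, he, sub_zero, sub_zero] at h3
  exact_mod_cast h3.symm

/-- **The first step**: the limit with the smallest norm. -/
theorem step {φ : Λ → ℤ} (hφ : PD φ) (h0 : 0 < φ 0) : ∃ ψ : Λ → ℤ, PD ψ ∧ PD (φ - ψ) ∧
    0 < ψ 0 ∧ ∃ T : Finset Λ, ∀ a, ψ a ≠ 0 → ∃ b ∈ T, ψ (a - b) = ψ 0 := by
  classical
  obtain ⟨H, _, _, _, e, he⟩ := hφ.gns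
  set f : Λ → ℝ := fun a => (φ a : ℝ) with hf
  have hR : (Set.range f).Finite := hφ.finite
  have hG : ∀ a b, inner ℝ (e a) (e b) = f (a - b) := he
  have hint : ∀ V : Ultrafilter Λ, ∀ k, ∃ n : ℤ, ps f V k = n := by
    intro V k
    obtain ⟨a, ha⟩ := ps_mem hR V k
    exact ⟨φ a, ha.symm⟩
  -- a limit with the smallest positive norm
  have hmin : ∃ V, 0 < ps f V 0 ∧ ∀ V', 0 < ps f V' 0 → ps f V 0 ≤ ps f V' 0 := by
    let S : Set ℝ := {x | ∃ V, 0 < ps f V 0 ∧ ps f V 0 = x}
    have hS : S.Finite := hR.subset (by rintro _ ⟨V, -, rfl⟩; exact ps_mem hR V 0)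
    have hne : 0 < ps f (pure 0) 0 := by
      obtain ⟨w, hw, h1, h2⟩ := exists_w hR hG (pure 0)
      have h3 : w 0 = e 0 := by
        refine ext_inner_right ℝ fun h => ?_
        have h4 := hw 0 h
        rw [Ultrafilter.coe_pure] at h4
        have h5 := tendsto_nhds_unique h4 (tendsto_pure_nhds _ _)
        rw [h5, add_zero]
      have h4 := h2 0 0
      rw [h3, hG, sub_self] at h4
      rw [← h4]
      have h5 : (0 : ℝ) < (φ 0 : ℝ) := by exact_mod_cast h0
      exact h5
    obtain ⟨x, ⟨V, hV, hx⟩, hle⟩ := Set.exists_min_image S id hS ⟨_, ⟨_, hne, rfl⟩⟩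
    exact ⟨V, hV, fun V' hV' => by
      rw [hx]
      exact hle _ ⟨V', hV', rfl⟩⟩
  obtain ⟨V, hV, hVmin⟩ := hmin
  obtain ⟨w, hw, h1, h2⟩ := exists_w hR hG V
  choose ψ hψ using hint V
  have h2' : ∀ k l, inner ℝ (w k) (w l) = (ψ (k - l) : ℝ) := fun k l => by rw [h2, hψ]
  have hψ0 : 0 < ψ 0 := by
    rw [hψ] at hV
    exact_mod_cast hV
  refine ⟨ψ, pd_of_inner h2', ⟨fun a => ?_, fun c => ?_⟩, hψ0, ?_⟩
  · rw [Pi.sub_apply, Pi.sub_apply, hφ.symm, (pd_of_inner h2').symm]
  · -- the difference is positive definite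
    have e1 : frm (fun a b => (((φ - ψ) (a - b) : ℤ) : ℝ)) c c =
        frm (fun a b => (φ (a - b) : ℝ)) c c - frm (fun a b => (ψ (a - b) : ℝ)) c c := by
      unfold frm Finsupp.sum
      rw [← Finset.sum_sub_distrib]
      refine Finset.sum_congr rfl fun a _ => ?_
      rw [← Finset.sum_sub_distrib]
      refine Finset.sum_congr rfl fun b _ => ?_
      simp only [Pi.sub_apply]
      push_cast
      ring
    rw [e1, sub_nonneg, ← frm_sum h2', ← frm_sum he]
    set y := c.sum fun a x => x • w a with hy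
    set z := c.sum fun a x => x • e a with hz
    have h3 : Tendsto (fun n => inner ℝ (c.sum fun a x => x • e (n + a)) y) V
        (𝓝 (inner ℝ y y)) := by
      have h4 : ∀ n, inner ℝ (c.sum fun a x => x • e (n + a)) y =
          ∑ a ∈ c.support, c a * inner ℝ (e (n + a)) y := by
        intro n
        unfold Finsupp.sum
        rw [sum_inner]
        refine Finset.sum_congr rfl fun a _ => ?_
        rw [real_inner_smul_left]
      have h5 : inner ℝ y y = ∑ a ∈ c.support, c a * inner ℝ (w a) y := by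
        conv_lhs => rw [hy]
        unfold Finsupp.sum
        rw [sum_inner]
        refine Finset.sum_congr rfl fun a _ => ?_
        rw [real_inner_smul_left]
        rfl
      simp_rw [h4]
      rw [h5]
      exact tendsto_finsetSum _ fun a _ => (hw a y).const_mul (c a)
    have h6 : ∀ n, ‖c.sum fun a x => x • e (n + a)‖ ^ 2 = ‖z‖ ^ 2 := by
      intro n
      rw [← real_inner_self_eq_norm_sq, ← real_inner_self_eq_norm_sq, hz, frm_sum he,
        frm_sum (e := fun a => e (n + a)) (K := fun a b => (φ (a - b) : ℝ)) fun a b => by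
          rw [he, add_sub_add_left_eq_sub]]
    have h7 : ∀ n, inner ℝ (c.sum fun a x => x • e (n + a)) y ≤ ‖z‖ * ‖y‖ := by
      intro n
      refine (real_inner_le_norm _ _).trans (mul_le_mul_of_nonneg_right ?_ (norm_nonneg _))
      exact (pow_le_pow_iff_left₀ (norm_nonneg _) (norm_nonneg _) two_ne_zero).1 (h6 n).le
    have h8 := le_of_tendsto h3 (Eventually.of_forall h7)
    rw [real_inner_self_eq_norm_sq] at h8
    rw [real_inner_self_eq_norm_sq, real_inner_self_eq_norm_sq]
    have h9 : ‖y‖ ≤ ‖z‖ := by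
      rcases (norm_nonneg y).eq_or_lt with h | h
      · rw [← h]
        exact norm_nonneg _
      · rw [sq] at h8
        exact le_of_mul_le_mul_right h8 h
    exact pow_le_pow_left₀ (norm_nonneg _) h9 2
  · -- the support
    by_contra hT
    push Not at hT
    have hNe : (⨅ T : Finset Λ, 𝓟 {a : Λ | ψ a ≠ 0 ∧ ∀ b ∈ T, ψ (a - b) ≠ ψ 0}).NeBot := by
      refine iInf_neBot_of_directed' ?_ fun T => ?_
      · intro T T'
        refine ⟨T ∪ T', ?_, ?_⟩
        · refine principal_mono.2 fun a ha => ⟨ha.1, fun b hb => ha.2 b (Finset.mem_union_left _ hb)⟩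
        · refine principal_mono.2 fun a ha => ⟨ha.1, fun b hb => ha.2 b (Finset.mem_union_right _ hb)⟩
      · rw [principal_neBot_iff]
        obtain ⟨a, ha, hb⟩ := hT T
        exact ⟨a, ha, hb⟩
    set V' : Ultrafilter Λ :=
      Ultrafilter.of (⨅ T : Finset Λ, 𝓟 {a : Λ | ψ a ≠ 0 ∧ ∀ b ∈ T, ψ (a - b) ≠ ψ 0}) with hV'
    have hV'1 : ∀ T : Finset Λ, ∀ᶠ a in (V' : Filter Λ), ψ a ≠ 0 ∧ ∀ b ∈ T, ψ (a - b) ≠ ψ 0 := by
      intro T
      have h3 := (Ultrafilter.of_le (⨅ T : Finset Λ,
        𝓟 {a : Λ | ψ a ≠ 0 ∧ ∀ b ∈ T, ψ (a - b) ≠ ψ 0})).trans (iInf_le _ T)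
      exact h3 (mem_principal_self _)
    set W : Ultrafilter Λ := V'.bind fun k => V.map fun n => n + k with hW
    have hWe : ∀ p : Λ → Prop, (∀ᶠ x in (W : Filter Λ), p x) ↔
        ∀ᶠ k in (V' : Filter Λ), ∀ᶠ n in (V : Filter Λ), p (n + k) := by
      intro p
      change (∀ᶠ x in Filter.bind (V' : Filter Λ) fun k => ((V.map fun n => n + k : Ultrafilter Λ) :
        Filter Λ), p x) ↔ _
      rw [Filter.eventually_bind]
      simp only [Ultrafilter.coe_map, Filter.eventually_map]
    set s : ℝ := ps f V 0 with hs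
    have hwn : ∀ k, ‖w k‖ = Real.sqrt s := by
      intro k
      rw [← Real.sqrt_sq (norm_nonneg (w k)), ← real_inner_self_eq_norm_sq, h2, sub_self]
    obtain ⟨τ, hτ⟩ := weak_lim V' w (fun k => (hwn k).le)
    obtain ⟨w', hw', -, h2''⟩ := exists_w hR hG W
    have hww : w' 0 = τ := by
      refine ext_inner_right ℝ fun h => ?_
      by_contra hne
      have hδ : 0 < |inner ℝ (w' 0) h - inner ℝ τ h| / 2 := by
        have := abs_pos.2 (sub_ne_zero.2 hne)
        linarith
      have h3 := hw' 0 h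
      simp only [add_zero] at h3
      have h4 := (Metric.tendsto_nhds.1 h3) _ hδ
      rw [hWe] at h4
      have h5 : ∀ᶠ k in (V' : Filter Λ), dist (inner ℝ (w k) h) (inner ℝ (w' 0) h) ≤
          |inner ℝ (w' 0) h - inner ℝ τ h| / 2 := by
        filter_upwards [h4] with k hk
        refine le_of_tendsto ((hw k h).dist tendsto_const_nhds) ?_
        filter_upwards [hk] with n hn
        exact hn.le
      have h6 := le_of_tendsto ((hτ h).dist tendsto_const_nhds) h5
      rw [dist_comm, Real.dist_eq] at h6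
      linarith
    -- the second limit is not zero
    have hτ0 : τ ≠ 0 := by
      intro h
      have h3 := hτ (w 0)
      rw [h, inner_zero_left] at h3
      have h4 := (Metric.tendsto_nhds.1 h3) 1 one_pos
      obtain ⟨k, hk, hk'⟩ := (h4.and (hV'1 ∅)).exists
      rw [h2', sub_zero, Real.dist_eq, sub_zero, ← Int.cast_abs] at hk
      have h5 : |ψ k| < 1 := by exact_mod_cast hk
      exact hk'.1 (Int.abs_lt_one_iff.1 h5)
    have hτs : s ≤ inner ℝ τ τ := by
      rw [← hww, h2'', sub_self]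
      refine hVmin W ?_
      have h3 := h2'' 0 0
      rw [sub_self, hww] at h3
      rw [← h3]
      exact real_inner_self_pos.2 hτ0
    have h7 : ∀ᶠ l in (V' : Filter Λ), s - 1 < inner ℝ (w l) τ :=
      (hτ τ).eventually (lt_mem_nhds (by linarith))
    obtain ⟨l, hl⟩ := h7.exists
    have h8 : ∀ᶠ k in (V' : Filter Λ), s - 1 < inner ℝ (w k) (w l) := by
      rw [real_inner_comm] at hl
      exact (hτ (w l)).eventually (lt_mem_nhds hl)
    obtain ⟨k, hk, hkl⟩ := (h8.and (hV'1 {l})).exists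
    have h9 := hkl.2 l (Finset.mem_singleton_self l)
    rw [h2', hs, hψ] at hk
    have h10 : ψ 0 - 1 < ψ (k - l) := by exact_mod_cast hk
    have h11 := (abs_le.1 ((pd_of_inner h2').le (k - l))).2
    exact h9 (by omega)

/-- **Positive definite functions with integer values.** -/
theorem decomp {φ : Λ → ℤ} (hφ : PD φ) : ∃ (n : ℕ) (ψ : Fin n → Λ → ℤ),
    (n : ℤ) ≤ φ 0 ∧ (∀ j, PD (ψ j)) ∧ (∀ j, 0 < ψ j 0) ∧ (∀ a, φ a = ∑ j, ψ j a) ∧
      ∀ j, ∃ T : Finset Λ, ∀ a, ψ j a ≠ 0 → ∃ b ∈ T, ψ j (a - b) = ψ j 0 := by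
  have key : ∀ N : ℕ, ∀ φ : Λ → ℤ, PD φ → φ 0 ≤ N → ∃ (n : ℕ) (ψ : Fin n → Λ → ℤ),
      (n : ℤ) ≤ φ 0 ∧ (∀ j, PD (ψ j)) ∧ (∀ j, 0 < ψ j 0) ∧ (∀ a, φ a = ∑ j, ψ j a) ∧
        ∀ j, ∃ T : Finset Λ, ∀ a, ψ j a ≠ 0 → ∃ b ∈ T, ψ j (a - b) = ψ j 0 := by
    intro N
    induction N with
    | zero =>
      intro φ hφ h
      refine ⟨0, Fin.elim0, ?_, fun j => j.elim0, fun j => j.elim0, fun a => ?_, fun j => j.elim0⟩
      · simpa using hφ.zero_le
      · have h1 := hφ.le a
        have h2 : |φ a| ≤ 0 := h1.trans (by simpa using h)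
        have h3 : φ a = 0 := abs_nonpos_iff.1 h2
        rw [h3, Finset.univ_eq_empty, Finset.sum_empty]
    | succ N ih =>
      intro φ hφ h
      rcases hφ.zero_le.eq_or_lt with h0 | h0
      · refine ⟨0, Fin.elim0, ?_, fun j => j.elim0, fun j => j.elim0, fun a => ?_, fun j => j.elim0⟩
        · simpa using hφ.zero_le
        · have h1 := hφ.le a
          rw [← h0] at h1
          have h3 : φ a = 0 := abs_nonpos_iff.1 h1
          rw [h3, Finset.univ_eq_empty, Finset.sum_empty]
      · obtain ⟨ψ, h1, h2, h3, h4⟩ := step hφ h0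
        obtain ⟨n, Ψ, h5, h6, h7, h8, h9⟩ := ih (φ - ψ) h2 (by
          rw [Pi.sub_apply]
          push_cast at h
          omega)
        refine ⟨n + 1, Fin.cons ψ Ψ, ?_, fun j => ?_, fun j => ?_, fun a => ?_, fun j => ?_⟩
        · rw [Pi.sub_apply] at h5
          push_cast
          omega
        · refine Fin.cases ?_ (fun i => ?_) j
          · simpa using h1
          · simpa using h6 i
        · refine Fin.cases ?_ (fun i => ?_) j
          · simpa using h3
          · simpa using h7 i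
        · rw [Fin.sum_univ_succ]
          simp only [Fin.cons_zero, Fin.cons_succ]
          rw [← h8 a, Pi.sub_apply]
          ring
        · refine Fin.cases ?_ (fun i => ?_) j
          · simpa using h4
          · simpa using h9 i
  exact key (φ 0).toNat φ hφ (by rw [Int.toNat_of_nonneg hφ.zero_le])

end

end Pool.Agent.Q284.CP
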