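import Pool.Agent.TH553.ST.Unit

/-! The imaginary parts of the mean values of an Euler product with a meromorphic continuation
vanish. -/

set_option autoImplicit false

namespace Pool.Agent.Q284.CP

open Complex Filter Topology Pool.Agent.W540.BE Pool.Agent.TH553.RS Pool.Agent.TH553.ST
  Pool.Agent.H341R2

/-- a zero of the cosine in every interval of length `π` -/
theorem exists_cos (a : ℝ) : ∃ y, a ≤ y ∧ y ≤ a + Real.pi ∧ Real.cos y = 0 := by
  have hπ := Real.pi_pos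
  refine ⟨Real.pi / 2 + ⌈(a - Real.pi / 2) / Real.pi⌉ * Real.pi, ?_, ?_, ?_⟩
  · have h := Int.le_ceil ((a - Real.pi / 2) / Real.pi)
    rw [div_le_iff₀ hπ] at h
    linarith
  · have h := Int.ceil_lt_add_one ((a - Real.pi / 2) / Real.pi)
    have h2 : (⌈(a - Real.pi / 2) / Real.pi⌉ : ℝ) * Real.pi <
        ((a - Real.pi / 2) / Real.pi + 1) * Real.pi := mul_lt_mul_of_pos_right h hπ
    rw [add_mul, div_mul_cancel₀ _ hπ.ne'] at h2
    linarith
  · rw [Real.cos_eq_zero_iff]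
    exact ⟨_, by ring⟩

/-- a continuous function whose cosine has no zero is bounded -/
theorem bdd_of_cos {f : ℝ → ℝ} {δ : ℝ} (hf : ContinuousOn f (Set.Ioo 0 δ))
    (hc : ∀ x ∈ Set.Ioo 0 δ, Real.cos (f x) ≠ 0) : ∃ B, ∀ x ∈ Set.Ioo 0 δ, |f x| ≤ B := by
  rcases le_or_gt δ 0 with h0 | h0
  · exact ⟨0, fun x hx => absurd (hx.1.trans hx.2) (not_lt.2 h0)⟩
  have hx₀ : δ / 2 ∈ Set.Ioo 0 δ := ⟨by linarith, by linarith⟩
  have hpre : IsPreconnected (f '' Set.Ioo 0 δ) := isPreconnected_Ioo.image f hf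
  refine ⟨|f (δ / 2)| + Real.pi, fun x hx => ?_⟩
  have h1 : f x ≤ f (δ / 2) + Real.pi := by
    by_contra hlt
    push Not at hlt
    obtain ⟨y, hy1, hy2, hy3⟩ := exists_cos (f (δ / 2))
    obtain ⟨z, hz, hzy⟩ := hpre.Icc_subset ⟨_, hx₀, rfl⟩ ⟨x, hx, rfl⟩
      (⟨hy1, hy2.trans hlt.le⟩ : y ∈ Set.Icc (f (δ / 2)) (f x))
    rw [← hzy] at hy3
    exact hc z hz hy3
  have h2 : f (δ / 2) - Real.pi ≤ f x := by
    by_contra hlt
    push Not at hlt
    obtain ⟨y, hy1, hy2, hy3⟩ := exists_cos (f x)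
    obtain ⟨z, hz, hzy⟩ := hpre.Icc_subset ⟨x, hx, rfl⟩ ⟨_, hx₀, rfl⟩
      (⟨hy1, by linarith⟩ : y ∈ Set.Icc (f x) (f (δ / 2)))
    rw [← hzy] at hy3
    exact hc z hz hy3
  have h3 := abs_le.1 (le_refl |f (δ / 2)|)
  rw [abs_le]
  constructor <;> linarith [h3.1, h3.2]

section

variable {P : Type*} {N : P → ℕ} (hN : NormSys N) {b : ℕ} (α : P → Fin b → ℂ)
  (hα : ∀ p j, ‖α p j‖ = 1) (τ : ℝ)

variable (N) in
/-- the logarithms of the local factors -/
noncomputable def Gl (ε : ℝ) (p : P) : ℂ := lg (α p) (((N p : ℕ) : ℂ) ^ (-(1 + τ * I + ε : ℂ)))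

variable (N) in
/-- the coefficients -/
noncomputable def cf (p : P) : ℂ := (∑ j, α p j) * ((N p : ℕ) : ℂ) ^ (-(τ * I : ℂ))

theorem re_pt (ε : ℝ) : (1 + τ * I + ε : ℂ).re = 1 + ε := by simp

include hN hα

theorem norm_cf (p : P) : ‖cf N α τ p‖ ≤ b := by
  unfold cf
  rw [norm_mul, norm_cpow_I (by have := hN.two_le p; omega) τ, mul_one]
  refine (norm_sum_le _ _).trans ?_
  simp_rw [hα]
  simp

theorem Gl_sub {ε : ℝ} (hε : 0 < ε) (p : P) :
    ‖Gl N α τ ε p - cf N α τ p * ((N p : ℝ) ^ (-(1 + ε)) : ℝ)‖ ≤ b * (N p : ℝ) ^ (-2 : ℝ) := by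
  have hN0 : (0 : ℝ) ≤ N p := by positivity
  have hNc : ((N p : ℕ) : ℂ) ≠ 0 := by
    have := hN.two_le p
    exact_mod_cast (by omega : N p ≠ 0)
  have h2 : cf N α τ p * (((N p : ℝ) ^ (-(1 + ε)) : ℝ) : ℂ) =
      (∑ j, α p j) * ((N p : ℕ) : ℂ) ^ (-(1 + τ * I + ε : ℂ)) := by
    unfold cf
    rw [Complex.ofReal_cpow hN0, mul_assoc]
    push_cast
    rw [← Complex.cpow_add _ _ hNc]
    congr 2
    ring
  rw [h2]
  unfold Gl
  refine (lg_sub (hα p) (cpow_le_half hN p (by rw [re_pt]; linarith))).trans ?_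
  refine mul_le_mul_of_nonneg_left ?_ (Nat.cast_nonneg _)
  rw [norm_cpow_neg hN, re_pt]
  have hN1 : (1 : ℝ) ≤ N p := by
    have := hN.two_le p
    exact_mod_cast (by omega : 1 ≤ N p)
  calc ((N p : ℝ) ^ (-(1 + ε))) ^ 2 ≤ ((N p : ℝ) ^ (-1 : ℝ)) ^ 2 := by
        refine pow_le_pow_left₀ (by positivity) ?_ 2
        exact Real.rpow_le_rpow_of_exponent_le hN1 (by linarith)
    _ = (N p : ℝ) ^ (-2 : ℝ) := by
        rw [← Real.rpow_natCast, ← Real.rpow_mul hN0]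
        norm_num

theorem Gl_sum {ε : ℝ} (hε : 0 < ε) : Summable (Gl N α τ ε) ∧
    |(∑' p, Gl N α τ ε p).im - EP N ε fun p => (cf N α τ p).im| ≤
      (b : ℝ) * ∑' p, (N p : ℝ) ^ (-2 : ℝ) := by
  have h1 := summable_and_boundP hN (Good := fun _ => True) hε (fun p => -I * Gl N α τ ε p)
    (fun p => -I * cf N α τ p) (K := b) (C := b)
    (fun p => by
      rw [norm_mul, norm_neg, norm_I, one_mul]
      exact norm_cf hN α hα τ p)
    (fun p hp => absurd trivial hp)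
    (fun p _ => by
      rw [mul_assoc, ← mul_sub, norm_mul, norm_neg, norm_I, one_mul]
      exact Gl_sub hN α hα τ hε p)
  simp only [if_true] at h1
  have h2 : Summable (Gl N α τ ε) := by
    have h3 := h1.1.mul_left I
    refine h3.congr fun p => ?_
    rw [← mul_assoc, mul_neg, I_mul_I]
    ring
  refine ⟨h2, ?_⟩
  have h3 : (∑' p, -I * Gl N α τ ε p).re = (∑' p, Gl N α τ ε p).im := by
    rw [tsum_mul_left]
    simp
  have h4 : (fun p => (-I * cf N α τ p).re) = fun p => (cf N α τ p).im := by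
    funext p
    simp
  rw [h3, h4, abs_of_nonneg (Nat.cast_nonneg b : (0 : ℝ) ≤ (b : ℝ))] at h1
  exact h1.2

theorem Gl_exp {ε : ℝ} (hε : 0 < ε) : cexp (∑' p, Gl N α τ ε p) =
    ∏' p, (∏ j, (1 - α p j * ((N p : ℕ) : ℂ) ^ (-(1 + τ * I + ε : ℂ))))⁻¹ := by
  have h1 := (Gl_sum hN α hα τ hε).1.hasSum.cexp
  rw [← h1.tprod_eq]
  refine tprod_congr fun p => ?_
  simp only [Function.comp]
  unfold Gl
  exact exp_lg (hα p) (lt_of_le_of_lt (cpow_le_half hN p (by rw [re_pt]; linarith)) (by norm_num))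

theorem Gl_cont : ContinuousOn (fun ε : ℝ => ∑' p, Gl N α τ ε p) (Set.Ioi 0) := by
  intro ε₁ hε₁
  have hε₁' : (0 : ℝ) < ε₁ := hε₁
  refine ContinuousAt.continuousWithinAt ?_
  have h1 : ContinuousOn (fun ε : ℝ => ∑' p, Gl N α τ ε p) (Set.Ioi (ε₁ / 2)) := by
    refine continuousOn_tsum (u := fun p => (b : ℝ) * (N p : ℝ) ^ (-2 : ℝ) +
      b * (N p : ℝ) ^ (-(1 + ε₁ / 2))) (fun p => ?_) ?_ fun p ε hε => ?_
    · unfold Gl lg
      refine continuousOn_finsetSum _ fun j _ => ?_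
      refine ContinuousOn.neg ?_
      have hNc : ((N p : ℕ) : ℂ) ≠ 0 := by
        have := hN.two_le p
        exact_mod_cast (by omega : N p ≠ 0)
      refine ContinuousOn.clog ?_ fun ε hε => ?_
      · have h2 : Continuous fun ε : ℝ => ((N p : ℕ) : ℂ) ^ (-(1 + τ * I + ε : ℂ)) := by
          refine Continuous.const_cpow ?_ (Or.inl hNc)
          fun_prop
        exact (continuous_const.sub (continuous_const.mul h2)).continuousOn
      · have hε' : ε₁ / 2 < ε := hε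
        left
        have h3 := cpow_le_half hN p (s := 1 + τ * I + ε) (by rw [re_pt]; linarith)
        have h4 : ‖α p j * ((N p : ℕ) : ℂ) ^ (-(1 + τ * I + ε : ℂ))‖ ≤ 1 / 2 := by
          rw [norm_mul, hα, one_mul]
          exact h3
        have h5 := (Complex.re_le_norm (α p j * ((N p : ℕ) : ℂ) ^ (-(1 + τ * I + ε : ℂ)))).trans h4
        rw [Complex.sub_re, Complex.one_re]
        linarith
    · refine ((hN.summable (-2) (by norm_num)).mul_left _).add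
        ((hN.summable (-(1 + ε₁ / 2)) (by linarith)).mul_left _)
    · have hε' : ε₁ / 2 < ε := hε
      have h2 := Gl_sub hN α hα τ (show 0 < ε by linarith) p
      have h3 : ‖cf N α τ p * ((N p : ℝ) ^ (-(1 + ε)) : ℝ)‖ ≤ b * (N p : ℝ) ^ (-(1 + ε₁ / 2)) := by
        rw [norm_mul, Complex.norm_real, Real.norm_eq_abs, abs_of_nonneg (wP_nonneg ε p)]
        refine mul_le_mul (norm_cf hN α hα τ p) ?_ (wP_nonneg ε p) (Nat.cast_nonneg _)
        have hN1 : (1 : ℝ) ≤ N p := by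
          have := hN.two_le p
          exact_mod_cast (by omega : 1 ≤ N p)
        exact Real.rpow_le_rpow_of_exponent_le hN1 (by linarith)
      calc ‖Gl N α τ ε p‖ = ‖(Gl N α τ ε p - cf N α τ p * ((N p : ℝ) ^ (-(1 + ε)) : ℝ)) +
            cf N α τ p * ((N p : ℝ) ^ (-(1 + ε)) : ℝ)‖ := by rw [sub_add_cancel]
        _ ≤ _ := (norm_add_le _ _).trans (add_le_add h2 h3)
  exact h1.continuousAt (Ioi_mem_nhds (by linarith))

/-- the imaginary parts are bounded -/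
theorem im_bdd {L Λ : ℂ → ℂ}
    (hL : ∀ s : ℂ, 1 < s.re → L s = ∏' p, (∏ j, (1 - α p j * ((N p : ℕ) : ℂ) ^ (-s)))⁻¹)
    (h1 : MeromorphicAt Λ (1 + τ * I))
    (h2 : ∀ᶠ s in 𝓝 ((1 : ℂ) + τ * I), (1 : ℝ) < s.re → Λ s = L s) :
    ∃ C, ∀ᶠ ε : ℝ in 𝓝[>] 0, |EP N ε fun p => (cf N α τ p).im| ≤ C := by
  set s₀ : ℂ := 1 + τ * I with hs₀
  set F : ℝ → ℂ := fun ε => ∑' p, Gl N α τ ε p with hF
  have hLF : ∀ ε : ℝ, 0 < ε → L (s₀ + ε) = cexp (F ε) := by
    intro ε hε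
    rw [hL _ (by rw [hs₀, re_pt]; linarith), hF]
    simp only
    rw [Gl_exp hN α hα τ hε]
  obtain ⟨m, hm, -⟩ := order_unit (L := L) (by
    filter_upwards [self_mem_nhdsWithin] with ε hε
    have hε' : (0 : ℝ) < ε := hε
    rw [hLF ε hε']
    exact Complex.exp_ne_zero _) h1 h2
  obtain ⟨g, hg1, hg2, hg3⟩ := (meromorphicOrderAt_eq_int_iff h1).1 hm
  set c : ℂ := g s₀ with hc
  have hpath : Tendsto (fun ε : ℝ => s₀ + ε) (𝓝[>] 0) (𝓝 s₀) := path_tendsto' s₀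
  have hpath' : Tendsto (fun ε : ℝ => s₀ + ε) (𝓝[>] 0) (𝓝[≠] s₀) := by
    rw [tendsto_nhdsWithin_iff]
    refine ⟨hpath, ?_⟩
    filter_upwards [self_mem_nhdsWithin] with ε hε
    have hε' : (0 : ℝ) < ε := hε
    simp only [Set.mem_compl_iff, Set.mem_singleton_iff, add_eq_left]
    exact_mod_cast hε'.ne'
  have e1 : ∀ᶠ ε : ℝ in 𝓝[>] 0, Λ (s₀ + ε) = (ε : ℂ) ^ m * g (s₀ + ε) := by
    filter_upwards [hpath'.eventually hg3] with ε h
    rw [h, add_sub_cancel_left, smul_eq_mul]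
  have e2 : ∀ᶠ ε : ℝ in 𝓝[>] 0, Λ (s₀ + ε) = cexp (F ε) := by
    filter_upwards [hpath.eventually h2, self_mem_nhdsWithin] with ε h h'
    have hε' : (0 : ℝ) < ε := h'
    rw [h (by rw [hs₀, re_pt]; linarith), hLF ε hε']
  have e3 : ∀ᶠ ε : ℝ in 𝓝[>] 0, ‖g (s₀ + ε) - c‖ < ‖c‖ / 2 := by
    have h3 := (hg1.continuousAt.tendsto.comp hpath)
    have h4 := (Metric.tendsto_nhds.1 h3) (‖c‖ / 2) (by
      have := norm_pos_iff.2 hg2
      linarith)
    filter_upwards [h4] with ε h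
    rw [← dist_eq_norm]
    exact h
  have e4 : ∀ᶠ ε : ℝ in 𝓝[>] 0, Real.cos ((F ε).im - arg c) ≠ 0 := by
    filter_upwards [e1, e2, e3, self_mem_nhdsWithin] with ε h3 h4 h5 h6
    have hε : (0 : ℝ) < ε := h6
    set w : ℂ := F ε - ((m * Real.log ε : ℝ) : ℂ) - Complex.log c with hw
    have hwexp : cexp w = g (s₀ + ε) / c := by
      rw [hw, Complex.exp_sub, Complex.exp_sub, Complex.exp_log hg2, ← h4, h3]
      have h7 : cexp ((m * Real.log ε : ℝ) : ℂ) = (ε : ℂ) ^ m := by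
        rw [← Complex.ofReal_exp]
        have h8 : Real.exp (m * Real.log ε) = ε ^ m := by
          rw [mul_comm, Real.exp_mul, Real.exp_log hε, Real.rpow_intCast]
        rw [h8, Complex.ofReal_zpow]
      rw [h7]
      have h8 : (ε : ℂ) ^ m ≠ 0 := zpow_ne_zero _ (by exact_mod_cast hε.ne')
      rw [mul_div_cancel_left₀ _ h8]
    have h7 : 0 < (g (s₀ + ε) / c).re := by
      have h8 : g (s₀ + ε) / c = 1 + (g (s₀ + ε) - c) / c := by
        field_simp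
        ring
      have h9 : ‖(g (s₀ + ε) - c) / c‖ < 1 / 2 := by
        rw [norm_div, div_lt_iff₀ (norm_pos_iff.2 hg2)]
        linarith
      have h10 := abs_le.1 (Complex.abs_re_le_norm ((g (s₀ + ε) - c) / c))
      rw [h8, Complex.add_re, Complex.one_re]
      linarith [h10.1]
    rw [← hwexp, Complex.exp_re] at h7
    have h8 : w.im = (F ε).im - arg c := by
      rw [hw, Complex.sub_im, Complex.sub_im, Complex.ofReal_im, Complex.log_im, sub_zero]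
    rw [h8] at h7
    intro h9
    rw [h9, mul_zero] at h7
    exact lt_irrefl _ h7
  obtain ⟨δ, hδ, hδ'⟩ := mem_nhdsGT_iff_exists_Ioo_subset.1 e4
  have hδ0 : (0 : ℝ) < δ := hδ
  have hcont : ContinuousOn (fun ε : ℝ => (F ε).im - arg c) (Set.Ioo 0 δ) := by
    refine ContinuousOn.sub ?_ continuousOn_const
    exact Complex.continuous_im.comp_continuousOn
      ((Gl_cont hN α hα τ).mono fun x hx => hx.1)
  obtain ⟨B, hB⟩ := bdd_of_cos hcont fun x hx => hδ' hx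
  refine ⟨B + |arg c| + b * ∑' p, (N p : ℝ) ^ (-2 : ℝ), ?_⟩
  filter_upwards [Ioo_mem_nhdsGT hδ0] with ε hε
  have h3 := hB ε hε
  have h4 := (Gl_sum hN α hα τ hε.1).2
  have h5 := abs_le.1 h3
  have h6 := abs_le.1 h4
  have h7 := abs_le.1 (le_refl |arg c|)
  rw [abs_le]
  constructor <;> linarith [h5.1, h5.2, h6.1, h6.2, h7.1, h7.2]

omit hN in
/-- **The imaginary parts of the mean values vanish.** -/
theorem M_im (hS : Sys N) {U : Ultrafilter ℝ} (hU : (U : Filter ℝ) ≤ 𝓝[>] 0) {L Λ : ℂ → ℂ}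
    (hL : ∀ s : ℂ, 1 < s.re → L s = ∏' p, (∏ j, (1 - α p j * ((N p : ℕ) : ℂ) ^ (-s)))⁻¹)
    (h1 : MeromorphicAt Λ (1 + τ * I))
    (h2 : ∀ᶠ s in 𝓝 ((1 : ℂ) + τ * I), (1 : ℝ) < s.re → Λ s = L s) :
    M N U (fun p => (cf N α τ p).im) = 0 := by
  obtain ⟨C, hC⟩ := im_bdd hS.sys α hα τ hL h1 h2
  refine M_of_tendsto hU ?_
  have hlim : Tendsto (fun ε : ℝ => C / lam ε) (𝓝[>] 0) (𝓝 0) :=
    tendsto_const_nhds.div_atTop lam_tendsto
  refine squeeze_zero_norm' ?_ hlim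
  filter_upwards [hC, lam_tendsto.eventually_gt_atTop 0] with ε h3 h4
  unfold qt
  rw [norm_div, Real.norm_eq_abs, Real.norm_eq_abs, abs_of_pos h4]
  exact div_le_div_of_nonneg_right h3 h4.le

end

end Pool.Agent.Q284.CP
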