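import Pool.Agent.Q284.CP.Im
import Pool.Agent.Q284.IM.Core

/-! The orders of Euler products over the primes of a number field and the mean values. -/

set_option autoImplicit false
set_option linter.unusedSectionVars false

namespace Pool.Agent.Q284.CP

open Filter Topology Complex NumberField IsDedekindDomain Pool.Agent.W540.BE Pool.Agent.TH553.RS
  Pool.Agent.TH553.ST Pool.Agent.H341R2 Pool.Agent.Q284.IM

section

variable {K : Type} [Field K] [NumberField K] {b : ℕ} {α : HeightOneSpectrum (𝓞 K) → Fin b → ℂ}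
  (hα : ∀ v j, ‖α v j‖ = 1)

/-- the Euler product -/
noncomputable def EL (α : HeightOneSpectrum (𝓞 K) → Fin b → ℂ) (s : ℂ) : ℂ :=
  ∏' v, (∏ j, (1 - α v j * ((nm K v : ℕ) : ℂ) ^ (-s)))⁻¹

/-- a continuation -/
def Ce (α : HeightOneSpectrum (𝓞 K) → Fin b → ℂ) (τ : ℝ) (Λ : ℂ → ℂ) : Prop :=
  MeromorphicAt Λ (1 + τ * I) ∧ ∀ᶠ s in 𝓝 ((1 : ℂ) + τ * I), (1 : ℝ) < s.re → Λ s = EL α s

include hα

theorem norm_sum_al' (v : HeightOneSpectrum (𝓞 K)) : ‖∑ j, α v j‖ ≤ b := by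
  refine (norm_sum_le _ _).trans ?_
  simp [hα]

theorem size_EL (τ : ℝ) : (∀ᶠ ε : ℝ in 𝓝[>] 0, EL α (1 + τ * I + ε) ≠ 0) ∧
    Tendsto (fun ε : ℝ => qt (nm K) (fun v =>
      ((∑ j, α v j) * ((nm K v : ℕ) : ℂ) ^ (-(τ * I : ℂ))).re) ε -
      Real.log ‖EL α (1 + τ * I + ε)‖ / Real.log (1 / ε)) (𝓝[>] 0) (𝓝 0) := by
  set B : HeightOneSpectrum (𝓞 K) → Polynomial ℂ := fun v =>
    ∏ j, (1 - Polynomial.C (α v j) * Polynomial.X) with hB
  have hBe : ∀ v z, (B v).eval z = ∏ j, (1 - α v j * z) := by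
    intro v z
    rw [hB]
    simp [Polynomial.eval_prod]
  exact size_unit (sysF K) α (Filter.Eventually.of_forall hα)
    (t := fun v => ∑ j, α v j) (C := (b : ℝ)) (norm_sum_al' hα)
    (Filter.Eventually.of_forall fun v => rfl) τ B (Filter.Eventually.of_forall hBe)
    (fun v => by
      rw [hBe, Finset.prod_ne_zero_iff]
      intro j _ h4
      have h5 : ‖α v j * ((nm K v : ℕ) : ℂ) ^ (-(1 + τ * I : ℂ))‖ = 1 := by
        have : α v j * ((nm K v : ℕ) : ℂ) ^ (-(1 + τ * I : ℂ)) = 1 := by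
          linear_combination -h4
        rw [this, norm_one]
      rw [norm_mul, hα, one_mul] at h5
      have h6 := cpow_le_half normSys v (s := 1 + τ * I) (by simp)
      linarith) (EL α)
    (fun s _ => by
      unfold EL
      refine tprod_congr fun v => ?_
      rw [hBe])

/-- **The mean values and the orders.** -/
theorem order_EL {τ : ℝ} {Λ : ℂ → ℂ} (hΛ : Ce α τ Λ) :
    ∃ m : ℤ, meromorphicOrderAt Λ (1 + τ * I) = m ∧
      ∀ U : Ultrafilter ℝ, (U : Filter ℝ) ≤ 𝓝[>] 0 →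
        M (nm K) U (fun v => ((∑ j, α v j) * ((nm K v : ℕ) : ℂ) ^ (-(τ * I : ℂ))).re) = -(m : ℝ) ∧
        M (nm K) U (fun v => ((∑ j, α v j) * ((nm K v : ℕ) : ℂ) ^ (-(τ * I : ℂ))).im) = 0 := by
  obtain ⟨m, hm1, hm2⟩ := order_unit (size_EL hα τ).1 hΛ.1 hΛ.2
  refine ⟨m, hm1, fun U hU => ⟨M_of_tendsto hU ?_, ?_⟩⟩
  · have h3 := (size_EL hα τ).2.add hm2
    rw [zero_add] at h3
    refine h3.congr fun ε => ?_
    ring
  · exact M_im α hα τ (sysF K) hU (L := EL α) (fun s _ => rfl) hΛ.1 hΛ.2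

/-- the case of the real point -/
theorem order_EL_zero {Λ : ℂ → ℂ} (hΛ : Ce α 0 Λ) :
    ∃ m : ℤ, meromorphicOrderAt Λ 1 = m ∧
      ∀ U : Ultrafilter ℝ, (U : Filter ℝ) ≤ 𝓝[>] 0 →
        M (nm K) U (fun v => (∑ j, α v j).re) = -(m : ℝ) ∧
        M (nm K) U (fun v => (∑ j, α v j).im) = 0 := by
  obtain ⟨m, h1, h2⟩ := order_EL hα hΛ
  have e : (1 : ℂ) + ((0 : ℝ) : ℂ) * I = 1 := by simp
  rw [e] at h1
  refine ⟨m, h1, fun U hU => ?_⟩
  have h3 := h2 U hU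
  simpa using h3

end

end Pool.Agent.Q284.CP
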