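import Pool.Agent.Q284.CP.Pos
import Pool.Agent.Q284.CP.Ord
import Pool.Agent.Q284.IM.Mn
import Pool.Agent.TH553.ST.Ext2

/-! The laws of points of a torus at the primes of a number field. -/

set_option autoImplicit false
set_option linter.unusedSectionVars false

namespace Pool.Agent.Q284.CP

open Filter Topology MeasureTheory UnitAddTorus ComplexConjugate NumberField IsDedekindDomain
  Pool.Agent.W540.BE Pool.Agent.TH553.RS Pool.Agent.TH553.ST Pool.Agent.H341R2 Pool.Agent.Q284.IM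

/-- positive functionals of a certain kind -/
structure Fn {r : ℕ} (B : (UnitAddTorus (Fin r) → ℝ) → ℝ) (C : ℝ) : Prop where
  add : ∀ f g, Continuous f → Continuous g → B (fun x => f x + g x) = B f + B g
  mul : ∀ (a : ℝ) f, Continuous f → B (fun x => a * f x) = a * B f
  bd : ∀ f, Continuous f → ∀ b : ℝ, (∀ x, |f x| ≤ b) → |B f| ≤ C * b

namespace Fn

variable {r : ℕ} {A B : (UnitAddTorus (Fin r) → ℝ) → ℝ} {C D : ℝ}

theorem sum (hB : Fn B C) {κ : Type} (s : Finset κ) {f : κ → UnitAddTorus (Fin r) → ℝ}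
    (hf : ∀ k ∈ s, Continuous (f k)) : B (fun x => ∑ k ∈ s, f k x) = ∑ k ∈ s, B (f k) := by
  classical
  induction s using Finset.induction_on with
  | empty =>
    simp only [Finset.sum_empty]
    have h := hB.mul 0 (fun _ => (0 : ℝ)) continuous_const
    simpa using h
  | insert a s ha ih =>
    simp only [Finset.sum_insert ha]
    rw [hB.add _ _ (hf a (Finset.mem_insert_self _ _))
      (continuous_finsetSum _ fun k hk => hf k (Finset.mem_insert_of_mem hk)),
      ih fun k hk => hf k (Finset.mem_insert_of_mem hk)]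

theorem sub (hB : Fn B C) {f g : UnitAddTorus (Fin r) → ℝ} (hf : Continuous f)
    (hg : Continuous g) : B (fun x => f x - g x) = B f - B g := by
  have h1 := hB.add f (fun x => (-1) * g x) hf (continuous_const.mul hg)
  rw [hB.mul _ _ hg] at h1
  have h2 : (fun x => f x - g x) = fun x => f x + (-1) * g x := by
    funext x
    ring
  rw [h2, h1]
  ring

/-- functionals with the same Fourier coefficients are equal -/
theorem ext (hA : Fn A C) (hB : Fn B D)
    (h1 : ∀ k : Fin r → ℤ, A (fun x => (mFourier k x).re) = B (fun x => (mFourier k x).re))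
    (h2 : ∀ k : Fin r → ℤ, A (fun x => (mFourier k x).im) = B (fun x => (mFourier k x).im))
    {f : UnitAddTorus (Fin r) → ℝ} (hf : Continuous f) : A f = B f := by
  classical
  have hC : 0 ≤ C := by
    have := hA.bd (fun _ => 1) continuous_const 1 (fun _ => by simp)
    rw [mul_one] at this
    exact (abs_nonneg _).trans this
  have hD : 0 ≤ D := by
    have := hB.bd (fun _ => 1) continuous_const 1 (fun _ => by simp)
    rw [mul_one] at this
    exact (abs_nonneg _).trans this
  set g : C(UnitAddTorus (Fin r), ℂ) := ⟨fun x => ((f x : ℝ) : ℂ),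
    Complex.continuous_ofReal.comp hf⟩ with hg
  have key : ∀ q ∈ Submodule.span ℂ (Set.range (mFourier (d := Fin r))),
      A (fun x => (q x).re) = B (fun x => (q x).re) := by
    intro q hq
    rw [Finsupp.mem_span_range_iff_exists_finsupp] at hq
    obtain ⟨c, rfl⟩ := hq
    have e0 : (fun x => ((c.sum fun i a => a • mFourier i : C(UnitAddTorus (Fin r), ℂ)) x).re) =
        fun x => ∑ a ∈ c.support, ((c a).re * (mFourier a x).re - (c a).im * (mFourier a x).im) := by
      funext x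
      unfold Finsupp.sum
      rw [ContinuousMap.sum_apply, Complex.re_sum]
      refine Finset.sum_congr rfl fun a _ => ?_
      rw [ContinuousMap.smul_apply, smul_eq_mul, Complex.mul_re]
    have hre : ∀ a : Fin r → ℤ, Continuous fun x : UnitAddTorus (Fin r) => (mFourier a x).re :=
      fun a => Complex.continuous_re.comp (mFourier a).continuous
    have him : ∀ a : Fin r → ℤ, Continuous fun x : UnitAddTorus (Fin r) => (mFourier a x).im :=
      fun a => Complex.continuous_im.comp (mFourier a).continuous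
    have h1c : ∀ a : Fin r → ℤ, Continuous fun x : UnitAddTorus (Fin r) =>
        (c a).re * (mFourier a x).re := fun a => continuous_const.mul (hre a)
    have h2c : ∀ a : Fin r → ℤ, Continuous fun x : UnitAddTorus (Fin r) =>
        (c a).im * (mFourier a x).im := fun a => continuous_const.mul (him a)
    have hsc : ∀ a ∈ c.support, Continuous fun x : UnitAddTorus (Fin r) =>
        (c a).re * (mFourier a x).re - (c a).im * (mFourier a x).im :=
      fun a _ => (h1c a).sub (h2c a)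
    rw [e0, hA.sum c.support hsc, hB.sum c.support hsc]
    refine Finset.sum_congr rfl fun a _ => ?_
    rw [hA.sub (h1c a) (h2c a), hB.sub (h1c a) (h2c a),
      hA.mul _ _ (hre a), hA.mul _ _ (him a), hB.mul _ _ (hre a), hB.mul _ _ (him a), h1, h2]
  have hmem : g ∈ closure ((Submodule.span ℂ (Set.range (mFourier (d := Fin r))) :
      Submodule ℂ C(UnitAddTorus (Fin r), ℂ)) : Set C(UnitAddTorus (Fin r), ℂ)) := by
    rw [← Submodule.topologicalClosure_coe, span_mFourier_closure_eq_top]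
    trivial
  have hall : ∀ δ : ℝ, 0 < δ → |A f - B f| ≤ (C + D) * δ := by
    intro δ hδ
    obtain ⟨q, hq, hgq⟩ := Metric.mem_closure_iff.1 hmem δ hδ
    have hqc : Continuous fun x => (q x).re := Complex.continuous_re.comp q.continuous
    have hbd : ∀ x, |f x - (q x).re| ≤ δ := by
      intro x
      have h3 : ‖(g - q) x‖ ≤ δ := by
        refine ((g - q).norm_coe_le_norm x).trans ?_
        rw [← dist_eq_norm]
        exact hgq.le
      have h4 : ((g - q) x).re = f x - (q x).re := by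
        rw [ContinuousMap.sub_apply, Complex.sub_re, hg]
        simp
      rw [← h4]
      exact (Complex.abs_re_le_norm _).trans h3
    have h3 := hA.bd (fun x => f x - (q x).re) (hf.sub hqc) δ hbd
    have h4 := hB.bd (fun x => f x - (q x).re) (hf.sub hqc) δ hbd
    rw [hA.sub hf hqc] at h3
    rw [hB.sub hf hqc] at h4
    have h5 := key q hq
    have h6 : A f - B f = (A f - A fun x => (q x).re) - (B f - B fun x => (q x).re) := by
      rw [h5]
      ring
    rw [h6]
    refine (abs_sub _ _).trans ?_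
    rw [add_mul]
    exact add_le_add h3 h4
  have h0 : |A f - B f| = 0 := by
    refine le_antisymm ?_ (abs_nonneg _)
    refine le_of_forall_pos_le_add fun η hη => ?_
    have h3 := hall (η / (C + D + 1)) (div_pos hη (by linarith))
    refine h3.trans ?_
    rw [zero_add, mul_div_assoc', div_le_iff₀ (by linarith)]
    nlinarith
  exact sub_eq_zero.1 (abs_eq_zero.1 h0)

end Fn

section

variable {K : Type} [Field K] [NumberField K] {r n : ℕ}
  (x : Fin n → HeightOneSpectrum (𝓞 K) → UnitAddTorus (Fin r))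

/-- the eigenvalues -/
noncomputable def em (k : Fin r → ℤ) (v : HeightOneSpectrum (𝓞 K)) (i : Fin n) : ℂ :=
  mFourier k (x i v)

theorem norm_em (k : Fin r → ℤ) (v : HeightOneSpectrum (𝓞 K)) (i : Fin n) : ‖em x k v i‖ = 1 :=
  norm_mF k _

theorem fam_em : Fam (fun (i : Fin n) (k : Fin r → ℤ) (v : HeightOneSpectrum (𝓞 K)) =>
    em x k v i) := by
  refine ⟨fun i k v => norm_em x k v i, fun i a b v => ?_⟩
  exact mFourier_add

/-- the orders -/
theorem exists_ord (hL : ∀ k : Fin r → ℤ, ∃ Λ, Ce (em x k) 0 Λ) : ∃ φ : (Fin r → ℤ) → ℤ,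
    (∀ k Λ, Ce (em x k) 0 Λ → meromorphicOrderAt Λ 1 = ((-φ k : ℤ) : WithTop ℤ)) ∧
    ∀ U : Ultrafilter ℝ, (U : Filter ℝ) ≤ 𝓝[>] 0 → ∀ k,
      M (nm K) U (fun v => (∑ i, em x k v i).re) = φ k ∧
      M (nm K) U (fun v => (∑ i, em x k v i).im) = 0 := by
  have h1 : ∀ k : Fin r → ℤ, ∃ m : ℤ, (∀ Λ, Ce (em x k) 0 Λ →
      meromorphicOrderAt Λ 1 = ((-m : ℤ) : WithTop ℤ)) ∧
      ∀ U : Ultrafilter ℝ, (U : Filter ℝ) ≤ 𝓝[>] 0 →
      M (nm K) U (fun v => (∑ i, em x k v i).re) = m ∧
      M (nm K) U (fun v => (∑ i, em x k v i).im) = 0 := by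
    intro k
    obtain ⟨Λ, hΛ⟩ := hL k
    obtain ⟨m, hm1, hm2⟩ := order_EL_zero (norm_em x k) hΛ
    refine ⟨-m, fun Λ' hΛ' => ?_, fun U hU => ?_⟩
    · obtain ⟨m', hm1', hm2'⟩ := order_EL_zero (norm_em x k) hΛ'
      have h2 := (hm2 (Ultrafilter.of (𝓝[>] 0)) (Ultrafilter.of_le _)).1
      rw [(hm2' (Ultrafilter.of (𝓝[>] 0)) (Ultrafilter.of_le _)).1] at h2
      have h3 : m' = m := by
        have : (m' : ℝ) = m := by linarith
        exact_mod_cast this
      rw [hm1', h3, neg_neg]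
    · rw [(hm2 U hU).1, (hm2 U hU).2]
      push_cast
      exact ⟨rfl, rfl⟩
  choose φ hφ using h1
  exact ⟨φ, fun k => (hφ k).1, fun U hU k => (hφ k).2 U hU⟩

theorem bd_em_re (k : Fin r → ℤ) (i : Fin n) : Bd fun v => (em x k v i).re :=
  ⟨1, fun v => (Complex.abs_re_le_norm _).trans (norm_em x k v i).le⟩

/-- the orders are positive definite -/
theorem pd_ord [NeZero n] {φ : (Fin r → ℤ) → ℤ} (h : ∀ U : Ultrafilter ℝ, (U : Filter ℝ) ≤ 𝓝[>] 0 → ∀ k,
      M (nm K) U (fun v => (∑ i, em x k v i).re) = φ k) : PD φ ∧ φ 0 = n := by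
  classical
  set U : Ultrafilter ℝ := Ultrafilter.of (𝓝[>] 0) with hU
  have hU' : (U : Filter ℝ) ≤ 𝓝[>] 0 := Ultrafilter.of_le _
  have hF := fam_em x
  have hn : (0 : ℝ) < n := by
    exact_mod_cast Nat.pos_of_ne_zero (NeZero.ne n)
  have hne : Nonempty (Fin n) := ⟨0⟩
  have e1 : ∀ k, (φ k : ℝ) = n * Pool.Agent.Q284.IM.av (nm K) (fun (i : Fin n) (k : Fin r → ℤ)
      (v : HeightOneSpectrum (𝓞 K)) => em x k v i) U k := by
    intro k
    rw [← h U hU' k]
    unfold Pool.Agent.Q284.IM.av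
    rw [Fintype.card_fin, ← mul_assoc, mul_inv_cancel₀ hn.ne', one_mul,
      ← M_sum (sysF K) hU' Finset.univ fun i _ => bd_em_re x k i]
    congr 1
    funext v
    rw [Complex.re_sum]
  refine ⟨⟨fun a => ?_, fun c => ?_⟩, ?_⟩
  · have h2 := e1 (-a)
    rw [av_neg hF, ← e1 a] at h2
    exact_mod_cast h2
  · have h2 := av_pd hF (sysF K) hU' c.support c
    unfold frm Finsupp.sum
    have h3 : ∑ a ∈ c.support, ∑ b ∈ c.support, c a * c b * (φ (a - b) : ℝ) =
        n * ∑ a ∈ c.support, ∑ b ∈ c.support, c a * c b *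
          Pool.Agent.Q284.IM.av (nm K) (fun (i : Fin n) (k : Fin r → ℤ)
            (v : HeightOneSpectrum (𝓞 K)) => em x k v i) U (a - b) := by
      rw [Finset.mul_sum]
      refine Finset.sum_congr rfl fun a _ => ?_
      rw [Finset.mul_sum]
      refine Finset.sum_congr rfl fun b _ => ?_
      rw [e1]
      ring
    rw [h3]
    exact mul_nonneg hn.le h2
  · have h2 := e1 0
    rw [av_zero hF (sysF K) hU', mul_one] at h2
    exact_mod_cast h2

/-- the mean values of continuous functions -/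
noncomputable def A (U : Ultrafilter ℝ) (f : UnitAddTorus (Fin r) → ℝ) : ℝ :=
  M (nm K) U fun v => ∑ i, f (x i v)

theorem exists_bd {f : UnitAddTorus (Fin r) → ℝ} (hf : Continuous f) : ∃ b, ∀ y, |f y| ≤ b := by
  obtain ⟨b, hb⟩ := isCompact_univ.exists_bound_of_continuousOn hf.continuousOn
  exact ⟨b, fun y => hb y (Set.mem_univ _)⟩

theorem bd_f {f : UnitAddTorus (Fin r) → ℝ} (hf : Continuous f) :
    Bd fun v : HeightOneSpectrum (𝓞 K) => ∑ i, f (x i v) := by
  obtain ⟨b, hb⟩ := exists_bd hf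
  exact Bd.sum _ fun i _ => ⟨b, fun v => hb _⟩

theorem fn_A {U : Ultrafilter ℝ} (hU : (U : Filter ℝ) ≤ 𝓝[>] 0) : Fn (A x U) n where
  add := fun f g hf hg => by
    unfold A
    rw [← M_add (sysF K) hU (bd_f x hf) (bd_f x hg)]
    congr 1
    funext v
    rw [Finset.sum_add_distrib]
  mul := fun a f hf => by
    unfold A
    rw [← M_const_mul (sysF K) hU (bd_f x hf)]
    congr 1
    funext v
    rw [Finset.mul_sum]
  bd := fun f hf b hb => by
    unfold A
    have h1 : ∀ v : HeightOneSpectrum (𝓞 K), |∑ i, f (x i v)| ≤ n * b := by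
      intro v
      refine (Finset.abs_sum_le_sum_abs _ _).trans ((Finset.sum_le_sum fun i _ => hb _).trans ?_)
      simp
    have h2 := M_mono (sysF K) hU (bd_f x hf) (Bd.const (n * b)) fun v => (abs_le.1 (h1 v)).2
    have h3 := M_mono (sysF K) hU (Bd.const (-(n * b))) (bd_f x hf) fun v => (abs_le.1 (h1 v)).1
    rw [M_const (sysF K) hU] at h2 h3
    exact abs_le.2 ⟨h3, h2⟩

end

section

variable {r N : ℕ} (G : Fin N → AddSubgroup (Fin r → ℤ)) (c : Fin N → ((Fin r → ℤ) →₀ ℤ))

/-- the functional of the law -/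
noncomputable def Bf (f : UnitAddTorus (Fin r) → ℝ) : ℝ :=
  ∑ j, ∫ y : ann (G j), f y.1 * tp (c j) y.1 ∂(hr (G j))

theorem fn_B : ∃ D, Fn (Bf G c) D := by
  choose B hB0 hB using fun j => bd_tp (c j)
  refine ⟨∑ j, B j, ⟨fun f g hf hg => ?_, fun a f hf => ?_, fun f hf b hb => ?_⟩⟩
  · unfold Bf
    rw [← Finset.sum_add_distrib]
    refine Finset.sum_congr rfl fun j _ => ?_
    rw [← integral_add (int_cont (f := fun y => f y * tp (c j) y) (hf.mul (cont_tp _)))
      (int_cont (f := fun y => g y * tp (c j) y) (hg.mul (cont_tp _)))]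
    refine integral_congr_ae (Eventually.of_forall fun y => ?_)
    simp only
    ring
  · unfold Bf
    rw [Finset.mul_sum]
    refine Finset.sum_congr rfl fun j _ => ?_
    rw [← integral_const_mul]
    refine integral_congr_ae (Eventually.of_forall fun y => ?_)
    simp only
    ring
  · unfold Bf
    rw [Finset.sum_mul]
    refine (Finset.abs_sum_le_sum_abs _ _).trans (Finset.sum_le_sum fun j _ => ?_)
    rw [← Real.norm_eq_abs]
    refine (norm_integral_le_of_norm_le_const (C := B j * b) (Eventually.of_forall fun y => ?_)).trans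
      (le_of_eq ?_)
    · rw [Real.norm_eq_abs, abs_mul, mul_comm (B j)]
      exact mul_le_mul (hb _) (hB j _) (abs_nonneg _) ((abs_nonneg _).trans (hb 0))
    · simp

end

section

variable {K : Type} [Field K] [NumberField K] {r n : ℕ} [NeZero n]
  (x : Fin n → HeightOneSpectrum (𝓞 K) → UnitAddTorus (Fin r))

/-- **The structure of the law.** -/
theorem law {φ : (Fin r → ℤ) → ℤ} (h : ∀ U : Ultrafilter ℝ, (U : Filter ℝ) ≤ 𝓝[>] 0 → ∀ k,
      M (nm K) U (fun v => (∑ i, em x k v i).re) = φ k ∧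
      M (nm K) U (fun v => (∑ i, em x k v i).im) = 0) :
    ∃ (N : ℕ) (G : Fin N → AddSubgroup (Fin r → ℤ)) (c : Fin N → ((Fin r → ℤ) →₀ ℤ)), N ≤ n ∧
      (∀ j, ∀ y ∈ ann (G j), 0 ≤ tp (c j) y) ∧
      (∀ j, ∃ m : ℕ, 0 < m ∧ ∫ y : ann (G j), tp (c j) y.1 ∂(hr (G j)) = m) ∧
      (∀ j, ∀ f : UnitAddTorus (Fin r) → ℝ, Continuous f → (∀ y, 0 ≤ f y) →
        0 ≤ ∫ y : ann (G j), f y.1 * tp (c j) y.1 ∂(hr (G j))) ∧
      (∀ U : Ultrafilter ℝ, (U : Filter ℝ) ≤ 𝓝[>] 0 → ∀ f : UnitAddTorus (Fin r) → ℝ,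
        Continuous f → A x U f = Bf G c f) ∧
      (∀ k, (φ k : ℝ) = Bf G c fun y => (mFourier k y).re) ∧
      (∀ k, (Bf G c fun y => (mFourier k y).im) = 0) ∧
      ((∀ j, G j = ⊥) → {k | φ k ≠ 0}.Finite) := by
  classical
  obtain ⟨hpd, h0⟩ := pd_ord x fun U hU k => (h U hU k).1
  obtain ⟨N, ψ, h1, h2, h3, h4, h5⟩ := decomp hpd
  choose R hR1 hR2 using fun j => exists_rep (h2 j) (h5 j)
  have hφ : ∀ k, (φ k : ℝ) = Bf (fun j => per (h2 j)) (fun j => dn (ψ j) (R j))
      fun y => (mFourier k y).re := by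
    intro k
    unfold Bf
    rw [h4 k]
    push_cast
    refine Finset.sum_congr rfl fun j _ => ?_
    rw [coef_re (h2 j) (hR1 j) (hR2 j)]
  have hφ' : ∀ k, (Bf (fun j => per (h2 j)) (fun j => dn (ψ j) (R j))
      fun y => (mFourier k y).im) = 0 := by
    intro k
    unfold Bf
    refine Finset.sum_eq_zero fun j _ => ?_
    rw [coef_im (h2 j) (hR1 j) (hR2 j)]
  obtain ⟨D, hD⟩ := fn_B (fun j => per (h2 j)) (fun j => dn (ψ j) (R j))
  refine ⟨N, fun j => per (h2 j), fun j => dn (ψ j) (R j), ?_, fun j y hy => ?_, fun j => ?_,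
    fun j f hf hf0 => ?_, fun U hU f hf => ?_, hφ, hφ', fun hbot => ?_⟩
  · rw [h0] at h1
    exact_mod_cast h1
  · exact tp_nonneg (h2 j) (hR1 j) (hR2 j) hy
  · refine ⟨(ψ j 0).toNat, ?_, ?_⟩
    · have := h3 j
      omega
    · rw [coef_zero (h2 j) (hR1 j) (hR2 j)]
      have h6 : ((ψ j 0).toNat : ℤ) = ψ j 0 := Int.toNat_of_nonneg (h3 j).le
      exact_mod_cast h6.symm
  · exact fun_nonneg (h2 j) (hR1 j) (hR2 j) hf hf0
  · refine (fn_A x hU).ext hD (fun k => ?_) (fun k => ?_) hf
    · rw [← hφ, ← (h U hU k).1]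
      unfold A
      congr 1
      funext v
      rw [Complex.re_sum]
      rfl
    · rw [hφ', ← (h U hU k).2]
      unfold A
      congr 1
      funext v
      rw [Complex.im_sum]
      rfl
  · refine (Finset.finite_toSet ((Finset.univ : Finset (Fin N)).biUnion R)).subset fun k hk => ?_
    rw [Set.mem_ofPred_eq, h4 k] at hk
    obtain ⟨j, -, hj⟩ := Finset.exists_ne_zero_of_sum_ne_zero hk
    obtain ⟨b, hb, hkb⟩ := hR2 j k hj
    have h6 : per (h2 j) = ⊥ := hbot j
    rw [h6, AddSubgroup.mem_bot, sub_eq_zero] at hkb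
    rw [hkb]
    exact Finset.mem_coe.2 (Finset.mem_biUnion.2 ⟨j, Finset.mem_univ _, hb⟩)

open Classical in
/-- the indicator function of the neighbourhood -/
noncomputable def nbh (d : Fin r → ℤ) (δ : ℝ) (v : HeightOneSpectrum (𝓞 K)) : ℝ :=
  if ∃ i, ‖mFourier d (x i v) - 1‖ < δ then 1 else 0

theorem bd_nbh (d : Fin r → ℤ) (δ : ℝ) : Bd (nbh x d δ) := ⟨1, fun v => by
  unfold nbh
  split_ifs <;> simp⟩

/-- **Concentration.** -/
theorem conc {N : ℕ} {G : Fin N → AddSubgroup (Fin r → ℤ)} {c : Fin N → ((Fin r → ℤ) →₀ ℤ)}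
    (h1 : ∀ j, ∃ m : ℕ, 0 < m ∧ ∫ y : ann (G j), tp (c j) y.1 ∂(hr (G j)) = m)
    (h2 : ∀ j, ∀ f : UnitAddTorus (Fin r) → ℝ, Continuous f → (∀ y, 0 ≤ f y) →
        0 ≤ ∫ y : ann (G j), f y.1 * tp (c j) y.1 ∂(hr (G j)))
    (h3 : ∀ U : Ultrafilter ℝ, (U : Filter ℝ) ≤ 𝓝[>] 0 → ∀ f : UnitAddTorus (Fin r) → ℝ,
        Continuous f → A x U f = Bf G c f) {j : Fin N} {d : Fin r → ℤ} (hd : d ∈ G j) {δ : ℝ}
    (hδ : 0 < δ) {U : Ultrafilter ℝ} (hU : (U : Filter ℝ) ≤ 𝓝[>] 0) :
    (1 : ℝ) / n ≤ M (nm K) U (nbh x d δ) := by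
  have hn : (0 : ℝ) < n := by
    exact_mod_cast Nat.pos_of_ne_zero (NeZero.ne n)
  set f : UnitAddTorus (Fin r) → ℝ := fun y => max 0 (1 - ‖mFourier d y - 1‖ / δ) with hf
  have hfc : Continuous f := by
    refine continuous_const.max (continuous_const.sub (Continuous.div_const ?_ _))
    exact ((mFourier d).continuous.sub continuous_const).norm
  have hf0 : ∀ y, 0 ≤ f y := fun y => le_max_left _ _
  have hf1 : ∀ y, f y ≤ 1 := fun y => max_le zero_le_one (by
    have : 0 ≤ ‖mFourier d y - 1‖ / δ := by positivity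
    linarith)
  have e1 : (1 : ℝ) ≤ Bf G c f := by
    unfold Bf
    have e2 : (1 : ℝ) ≤ ∫ y : ann (G j), f y.1 * tp (c j) y.1 ∂(hr (G j)) := by
      obtain ⟨m, hm, hm'⟩ := h1 j
      have e3 : ∀ y : ann (G j), f y.1 * tp (c j) y.1 = tp (c j) y.1 := by
        intro y
        have : f y.1 = 1 := by
          rw [hf]
          simp only
          rw [y.2 d hd, sub_self, norm_zero, zero_div, sub_zero]
          exact max_eq_right zero_le_one
        rw [this, one_mul]
      simp_rw [e3]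
      rw [hm']
      exact_mod_cast hm
    refine e2.trans (Finset.single_le_sum (f := fun j =>
      ∫ y : ann (G j), f y.1 * tp (c j) y.1 ∂(hr (G j))) (fun i _ => h2 i f hfc hf0)
      (Finset.mem_univ j))
  rw [← h3 U hU f hfc] at e1
  have e2 : A x U f ≤ n * M (nm K) U (nbh x d δ) := by
    unfold A
    rw [← M_const_mul (sysF K) hU (bd_nbh x d δ)]
    refine M_mono (sysF K) hU (bd_f x hfc) ((bd_nbh x d δ).const_mul _) fun v => ?_
    unfold nbh
    split_ifs with hv
    · rw [mul_one]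
      refine (Finset.sum_le_sum fun i _ => hf1 (x i v)).trans ?_
      simp
    · push Not at hv
      rw [mul_zero]
      refine le_of_eq (Finset.sum_eq_zero fun i _ => ?_)
      rw [hf]
      simp only
      refine max_eq_left ?_
      have := (one_le_div hδ).2 (hv i)
      linarith
  rw [div_le_iff₀ hn, mul_comm]
  linarith

end

end Pool.Agent.Q284.CP
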