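import Pool.Agent.TH553.ST.Taub3
import Pool.Agent.Q284.CP.Ord

/-! The Tauberian theorem for Euler products with a pole or a zero at one. -/

set_option autoImplicit false
set_option linter.unusedSectionVars false

namespace Pool.Agent.Q284.CP

open Complex Filter Topology ComplexConjugate NumberField IsDedekindDomain
  Pool.Agent.W540.BE Pool.Agent.TH553.RS H332.PIT Pool.Agent.TH553.ST

section

variable {K : Type} [Field K] [NumberField K]

/-- **The weighted mean value.** -/
theorem sum_wt' {t : HeightOneSpectrum (𝓞 K) → ℂ} {B : ℝ} (hB0 : 0 ≤ B) (ht : ∀ v, ‖t v‖ ≤ B)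
    {m : ℝ} (hbd : ∀ s : ℂ, 1 ≤ s.re → ∃ y, Tendsto (fun z => S t z - m / (z - 1))
      (𝓝[{s : ℂ | 1 < s.re}] s) (𝓝 y)) {ζ : ℂ} (hζ : ‖ζ‖ ≤ 1) :
    Tendsto (fun x : ℝ => (∑ k ∈ Finset.Icc 1 ⌊x⌋₊, (B * LamK K k + wt ζ t k)) / x) atTop
      (𝓝 (B + ζ.re * m)) := by
  set f : ℂ → ℂ := fun s => B * (LL K s - 1 / (s - 1)) + ζ / 2 * (S t s - m / (s - 1)) +
    conj ζ / 2 * conj (S t (conj s) - m / (conj s - 1)) with hf
  have hconj : ∀ s : ℂ, Tendsto (fun z : ℂ => conj z) (𝓝[{s : ℂ | 1 < s.re}] s)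
      (𝓝[{s : ℂ | 1 < s.re}] (conj s)) := by
    intro s
    rw [tendsto_nhdsWithin_iff]
    refine ⟨(Complex.continuous_conj.tendsto s).mono_left nhdsWithin_le_nhds, ?_⟩
    filter_upwards [self_mem_nhdsWithin] with z hz
    have : 1 < z.re := hz
    simpa using this
  have hbd' : ∀ s : ℂ, 1 ≤ s.re → ∃ y, Tendsto f (𝓝[{s : ℂ | 1 < s.re}] s) (𝓝 y) := by
    intro s hs
    obtain ⟨y0, h0⟩ := boundary (K := K) (Pool.Agent.H484R2.continuation K) hs
    obtain ⟨y1, h1⟩ := hbd s hs
    obtain ⟨y2, h2⟩ := hbd (conj s) (by simpa using hs)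
    have h3 := (Complex.continuous_conj.tendsto y2).comp (h2.comp (hconj s))
    exact ⟨_, ((h0.const_mul _).add (h1.const_mul _)).add (h3.const_mul _)⟩
  have hLam : ∀ n, 0 ≤ LamK K n := LamK_nonneg
  refine Pool.Agent.Helper923.PNT.wiener_ikehara (fun k => B * LamK K k + wt ζ t k) ?_
    (2 * B * ((Module.finrank ℚ K : ℝ) ^ 2 * (Real.log 4 + 4))) (B + ζ.re * m) ?_
    (extendFrom {s : ℂ | 1 < s.re} f) ?_ ?_
  · intro n
    have := (abs_le.1 (wt_le hζ hB0 ht n)).1
    linarith
  · intro n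
    have h1 : ∑ k ∈ Finset.Icc 1 n, (B * LamK K k + wt ζ t k) ≤
        ∑ k ∈ Finset.Icc 1 n, (2 * B) * LamK K k := by
      refine Finset.sum_le_sum fun k _ => ?_
      have := (abs_le.1 (wt_le hζ hB0 ht k)).2
      linarith
    have h2 : ∑ k ∈ Finset.Icc 1 n, LamK K k ≤
        (Module.finrank ℚ K : ℝ) ^ 2 * Chebyshev.psi n := by
      unfold Chebyshev.psi
      rw [Nat.floor_natCast, Finset.mul_sum]
      exact Finset.sum_le_sum fun k _ => LamK_le k
    have h3 : (Module.finrank ℚ K : ℝ) ^ 2 * Chebyshev.psi n ≤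
        (Module.finrank ℚ K : ℝ) ^ 2 * ((Real.log 4 + 4) * n) :=
      mul_le_mul_of_nonneg_left (Chebyshev.psi_le_const_mul_self (Nat.cast_nonneg n))
        (by positivity)
    rw [← Finset.mul_sum] at h1
    refine h1.trans ?_
    calc 2 * B * ∑ k ∈ Finset.Icc 1 n, LamK K k ≤
          2 * B * ((Module.finrank ℚ K : ℝ) ^ 2 * ((Real.log 4 + 4) * n)) :=
          mul_le_mul_of_nonneg_left (h2.trans h3) (by positivity)
      _ = _ := by ring
  · refine continuousOn_extendFrom ?_ fun s hs => hbd' s hs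
    intro s hs
    rw [Metric.mem_closure_iff]
    intro ε hε
    refine ⟨s + ((ε / 2 : ℝ) : ℂ), ?_, ?_⟩
    · have : (1 : ℝ) ≤ s.re := hs
      simp only [Set.mem_ofPred_eq, Complex.add_re, Complex.ofReal_re]
      linarith
    · rw [dist_eq_norm, sub_add_cancel_left, norm_neg, Complex.norm_real, Real.norm_eq_abs,
        abs_of_pos (by linarith)]
      linarith
  · intro s hs
    have h1 : ContinuousOn f {s : ℂ | 1 < s.re} := by
      intro z hz
      have hz' : 1 < z.re := hz
      have hne : ∀ z : ℂ, 1 < z.re → z - 1 ≠ 0 := by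
        intro z hz' h1
        have : z = 1 := sub_eq_zero.mp h1
        rw [this] at hz'
        simp at hz'
      have hz1 : z - 1 ≠ 0 := hne z hz'
      refine ContinuousAt.continuousWithinAt ?_
      have hcj : 1 < (conj z).re := by simpa using hz'
      have hdm : ∀ z : ℂ, 1 < z.re → ContinuousAt (fun w : ℂ => S t w - (m : ℂ) / (w - 1)) z :=
        fun z hz' => (an_S ht hz').continuousAt.sub
          (continuousAt_const.div (continuous_id.sub continuous_const).continuousAt (hne z hz'))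
      have h2 : ContinuousAt (fun z : ℂ => conj (S t (conj z) - (m : ℂ) / (conj z - 1))) z :=
        Complex.continuous_conj.continuousAt.comp
          (ContinuousAt.comp (f := fun z : ℂ => conj z) (hdm _ hcj)
            Complex.continuous_conj.continuousAt)
      exact ((continuousAt_const.mul ((LL_analyticAt hz).continuousAt.sub
        (continuousAt_const.div (continuous_id.sub continuous_const).continuousAt hz1))).add
        (continuousAt_const.mul (hdm z hz'))).add (continuousAt_const.mul h2)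
    rw [extendFrom_extends h1 s hs, hf]
    have h2 : LSeries (fun n => ((B * LamK K n + wt ζ t n : ℝ) : ℂ)) s =
        B * LL K s + ζ / 2 * S t s + conj ζ / 2 * conj (S t (conj s)) := by
      have e1 : (fun n : ℕ => ((B * LamK K n + wt ζ t n : ℝ) : ℂ)) =
          (B : ℂ) • (fun n : ℕ => (LamK K n : ℂ)) + (ζ / 2) • (lc t) +
            (conj ζ / 2) • (fun n => conj (lc t n)) := by
        funext n
        simp only [Pi.add_apply, Pi.smul_apply, smul_eq_mul]
        rw [Complex.ofReal_add, wt_eq, Complex.ofReal_mul]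
        ring
      have a0 : LSeriesSummable ((B : ℂ) • (fun n : ℕ => (LamK K n : ℂ))) s :=
        (LamK_summable (K := K) hs).smul _
      have a1 : LSeriesSummable ((ζ / 2) • (lc t)) s := (summ_lc ht hs).smul _
      have a2 : LSeriesSummable ((conj ζ / 2) • (fun n => conj (lc t n))) s :=
        (summ_conj _ _ (summ_lc ht hs)).smul _
      rw [e1, LSeries_add (a0.add a1) a2, LSeries_add a0 a1, LSeries_smul, LSeries_smul,
        LSeries_smul, LS_conj]
      rfl
    rw [h2]
    have e3 : conj (S t (conj s) - (m : ℂ) / (conj s - 1)) =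
        conj (S t (conj s)) - (m : ℂ) / (s - 1) := by
      rw [map_sub, map_div₀, Complex.conj_ofReal, map_sub, Complex.conj_conj, map_one]
    have e4 : ((B + ζ.re * m : ℝ) : ℂ) = B + (ζ + conj ζ) / 2 * m := by
      rw [Complex.add_conj]
      push_cast
      ring
    simp only [e3, e4]
    ring

/-- **The Tauberian theorem.** -/
theorem taub_mn' {t : HeightOneSpectrum (𝓞 K) → ℂ} {B : ℝ} (hB0 : 0 ≤ B) (ht : ∀ v, ‖t v‖ ≤ B)
    {m : ℝ} (hbd : ∀ s : ℂ, 1 ≤ s.re → ∃ y, Tendsto (fun z => S t z - m / (z - 1))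
      (𝓝[{s : ℂ | 1 < s.re}] s) (𝓝 y)) :
    Tendsto (mn t) atTop (𝓝 (m : ℂ)) := by
  have key : ∀ ζ : ℂ, ‖ζ‖ ≤ 1 → Tendsto (fun N : ℕ =>
      (∑ k ∈ Finset.Icc 1 N, wt ζ t k) / (N : ℝ)) atTop (𝓝 (ζ.re * m)) := by
    intro ζ hζ
    have h1 := (sum_wt' (K := K) hB0 ht hbd hζ).comp (tendsto_natCast_atTop_atTop (R := ℝ))
    have h2 := ((sum_LamK (K := K) (Pool.Agent.H484R2.continuation K)).comp
      (tendsto_natCast_atTop_atTop (R := ℝ))).const_mul B
    have h3 := h1.sub h2
    rw [mul_one, add_sub_cancel_left] at h3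
    refine h3.congr fun N => ?_
    simp only [Function.comp, Nat.floor_natCast]
    rw [Finset.sum_add_distrib, ← Finset.mul_sum]
    ring
  -- the weighted sums
  set T : ℕ → ℂ := fun N => ∑ k ∈ Finset.Icc 1 N, lc t k with hT
  have hT0 : Tendsto (fun N : ℕ => T N / (N : ℂ)) atTop (𝓝 (m : ℂ)) := by
    have k1 := key 1 (by simp)
    have k2 := key (-I) (by simp)
    have h1 : Tendsto (fun N : ℕ => (((∑ k ∈ Finset.Icc 1 N, wt 1 t k) / (N : ℝ) : ℝ) : ℂ) +
        (((∑ k ∈ Finset.Icc 1 N, wt (-I) t k) / (N : ℝ) : ℝ) : ℂ) * I) atTop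
        (𝓝 ((((1 : ℂ).re * m : ℝ) : ℂ) + (((-I : ℂ).re * m : ℝ) : ℂ) * I)) :=
      ((Complex.continuous_ofReal.tendsto _).comp k1).add
        (((Complex.continuous_ofReal.tendsto _).comp k2).mul_const I)
    have e0 : (((1 : ℂ).re * m : ℝ) : ℂ) + (((-I : ℂ).re * m : ℝ) : ℂ) * I = m := by
      simp
    rw [e0] at h1
    refine h1.congr fun N => ?_
    push_cast
    rw [div_mul_eq_mul_div, ← add_div, Finset.sum_mul, ← Finset.sum_add_distrib]
    congr 1
    refine Finset.sum_congr rfl fun k _ => ?_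
    have h2 : wt 1 t k = (lc t k).re := by simp [wt]
    have h3 : wt (-I) t k = (lc t k).im := by simp [wt]
    rw [h2, h3]
    exact Complex.re_add_im (lc t k)
  have hTv : ∀ N, T N = ∑ v ∈ upto K N, (Real.log (nm K v) : ℂ) * t v := by
    intro N
    rw [← sum_nf (fun v => (Real.log (nm K v) : ℂ) * t v) N]
    refine Finset.sum_congr rfl fun k _ => ?_
    rw [lc_eq]
    unfold nf
    rw [Finset.mul_sum]
    refine Finset.sum_congr rfl fun v hv => ?_
    rw [Set.Finite.mem_toFinset, Set.mem_ofPred_eq] at hv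
    simp only [hv]
  set A : ℕ → ℂ := fun N => ∑ v ∈ upto K N, t v with hA
  have hdiff : ∀ N : ℕ, ‖A N * ((Real.log N : ℝ) : ℂ) - T N‖ ≤
      B * (((upto K N).card : ℝ) * Real.log N - WK K N) := by
    intro N
    have e1 : A N * ((Real.log N : ℝ) : ℂ) - T N =
        ∑ v ∈ upto K N, ((Real.log N - Real.log (nm K v) : ℝ) : ℂ) * t v := by
      rw [hTv, hA]
      simp only
      rw [Finset.sum_mul, ← Finset.sum_sub_distrib]
      exact Finset.sum_congr rfl fun v _ => by push_cast; ring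
    have e2 : ((upto K N).card : ℝ) * Real.log N - WK K N =
        ∑ v ∈ upto K N, (Real.log N - Real.log (nm K v)) := by
      rw [Finset.sum_sub_distrib, Finset.sum_const, nsmul_eq_mul]
      rfl
    rw [e1, e2, Finset.mul_sum]
    refine (norm_sum_le _ _).trans (Finset.sum_le_sum fun v hv => ?_)
    rw [norm_mul, Complex.norm_real, Real.norm_of_nonneg (log_le_log hv), mul_comm]
    exact mul_le_mul_of_nonneg_right (ht v) (log_le_log hv)
  have h0 : Tendsto (fun N : ℕ => B * ((((upto K N).card : ℝ) * Real.log N - WK K N) / N)) atTop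
      (𝓝 0) := by
    have := (WK_tendsto (K := K)).const_mul B
    simpa using this
  have h1 : Tendsto (fun N : ℕ => A N * ((Real.log N : ℝ) : ℂ) / N - T N / N) atTop (𝓝 0) := by
    refine squeeze_zero_norm (fun N => ?_) h0
    rw [← sub_div, norm_div, ← mul_div_assoc]
    have e4 : ‖(N : ℂ)‖ = N := by simp
    rw [e4]
    exact div_le_div_of_nonneg_right (hdiff N) (Nat.cast_nonneg _)
  have h2 : Tendsto (fun N : ℕ => A N * ((Real.log N : ℝ) : ℂ) / N) atTop (𝓝 (m : ℂ)) := by
    have := h1.add hT0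
    rw [zero_add] at this
    exact this.congr fun N => by ring
  have hpi' : Tendsto (fun N : ℕ => (((Nat.primeCounting N : ℝ) * Real.log N / N : ℝ) : ℂ)) atTop
      (𝓝 ((1 : ℝ) : ℂ)) := (Complex.continuous_ofReal.tendsto _).comp pi_log
  have h3 := h2.div hpi' (by simp)
  rw [ofReal_one, div_one] at h3
  refine mn_of_pi (h3.congr' ?_)
  filter_upwards [eventually_ge_atTop 2] with N hN
  have hl : ((Real.log N : ℝ) : ℂ) ≠ 0 := by
    have : 0 < Real.log N := Real.log_pos (by exact_mod_cast hN)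
    exact_mod_cast this.ne'
  have hN0 : (N : ℂ) ≠ 0 := by
    have : N ≠ 0 := by omega
    exact_mod_cast this
  have hp : (Nat.primeCounting N : ℂ) ≠ 0 := by
    have : Nat.primeCounting N ≠ 0 := by
      rw [Ne, Nat.primeCounting_eq_zero_iff]
      omega
    exact_mod_cast this
  simp only [Pi.div_apply]
  push_cast
  have hl' : Complex.log (N : ℂ) ≠ 0 := by
    rw [← Complex.natCast_log]
    exact hl
  field_simp
  rfl

variable {b : ℕ} {α : HeightOneSpectrum (𝓞 K) → Fin b → ℂ} (hα : ∀ v j, ‖α v j‖ = 1)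

include hα

/-- the boundary values -/
theorem bd_S' {m : ℤ} (hc : ∀ τ : ℝ, ∃ Λ, Ce α τ Λ ∧
      meromorphicOrderAt Λ (1 + τ * I) = ((if τ = 0 then -m else 0 : ℤ) : WithTop ℤ)) {s : ℂ}
    (hs : 1 ≤ s.re) :
    ∃ y, Tendsto (fun z => S (fun v => ∑ j, α v j) z - (m : ℝ) / (z - 1))
      (𝓝[{s : ℂ | 1 < s.re}] s) (𝓝 y) := by
  rcases hs.eq_or_lt with h | h
  · have hs' : s = 1 + (s.im : ℝ) * I := by
      apply Complex.ext <;> simp [← h]
    obtain ⟨Λ, hΛ, hord⟩ := hc s.im
    obtain ⟨g, h1, h2, h3⟩ := (meromorphicOrderAt_eq_int_iff hΛ.1).1 hord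
    rw [hs']
    set τ : ℝ := s.im with hτ
    set s0 : ℂ := 1 + (τ : ℝ) * I with hs0
    have hmem : s0 ∈ Hp := by
      have : (3 / 4 : ℝ) < s0.re := by rw [hs0]; norm_num
      exact this
    have hR : AnalyticAt ℂ (Rt α) s0 := (diff_Rt hα).analyticAt (isOpen_Hp.mem_nhds hmem)
    -- the logarithmic derivative near the point
    have hfor : ∀ᶠ z in 𝓝[{s : ℂ | 1 < s.re}] s0, S (fun v => ∑ j, α v j) z =
        deriv (Rt α) z - (((if τ = 0 then -m else 0 : ℤ) : ℂ) / (z - s0) + deriv g z / g z) := by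
      have h4 : ∀ᶠ z in 𝓝 s0, g z ≠ 0 := h1.continuousAt.eventually_ne h2
      have h5 : ∀ᶠ z in 𝓝 s0, AnalyticAt ℂ g z := h1.eventually_analyticAt
      rw [eventually_nhdsWithin_iff] at h3
      have h6 := h3.eventually_nhds
      have h7 := hΛ.2.eventually_nhds
      filter_upwards [h4.filter_mono nhdsWithin_le_nhds, h5.filter_mono nhdsWithin_le_nhds,
        h6.filter_mono nhdsWithin_le_nhds, h7.filter_mono nhdsWithin_le_nhds, self_mem_nhdsWithin]
        with z h4 h5 h6 h7 hre
      have hre' : 1 < z.re := hre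
      have hzs : z - s0 ≠ 0 := by
        intro h8
        have : z = s0 := sub_eq_zero.1 h8
        rw [this, hs0] at hre'
        simp at hre'
      have h8 : EL α =ᶠ[𝓝 z] fun w => (w - s0) ^ (if τ = 0 then -m else 0 : ℤ) * g w := by
        filter_upwards [h6, h7, isOpen_re.mem_nhds hre] with w h9 h10 h11
        have hne : w ≠ s0 := by
          intro h12
          have h13 : 1 < w.re := h11
          rw [h12, hs0] at h13
          simp at h13
        rw [← h10 h11, h9 hne, smul_eq_mul]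
      rw [(S_eq hα (L := EL α) (fun s _ => rfl) hre').2, h8.deriv_eq, h8.eq_of_nhds]
      congr 1
      generalize (if τ = 0 then -m else 0 : ℤ) = k
      have h9 : HasDerivAt (fun w : ℂ => (w - s0) ^ k) ((k : ℂ) * (z - s0) ^ (k - 1)) z := by
        have := (hasDerivAt_zpow k (z - s0) (Or.inl hzs)).comp z
          ((hasDerivAt_id z).sub_const s0)
        rw [mul_one] at this
        exact this
      rw [(h9.fun_mul h5.differentiableAt.hasDerivAt).deriv]
      have h10 : (z - s0) ^ k ≠ 0 := zpow_ne_zero _ hzs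
      rw [zpow_sub_one₀ hzs]
      field_simp
    have hlim : Tendsto (fun z => deriv (Rt α) z - deriv g z / g z) (𝓝[{s : ℂ | 1 < s.re}] s0)
        (𝓝 (deriv (Rt α) s0 - deriv g s0 / g s0)) :=
      (hR.deriv.continuousAt.sub (h1.deriv.continuousAt.div h1.continuousAt h2)).mono_left
        nhdsWithin_le_nhds
    rcases eq_or_ne τ 0 with h0 | h0
    · refine ⟨_, hlim.congr' ?_⟩
      filter_upwards [hfor] with z hz
      rw [hz, if_pos h0]
      have e1 : s0 = 1 := by
        rw [hs0, h0]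
        simp
      rw [e1]
      push_cast
      ring
    · have h4 : Tendsto (fun z : ℂ => ((m : ℝ) : ℂ) / (z - 1)) (𝓝[{s : ℂ | 1 < s.re}] s0)
          (𝓝 (((m : ℝ) : ℂ) / (s0 - 1))) := by
        have hne : s0 - 1 ≠ 0 := by
          rw [hs0, add_sub_cancel_left]
          exact mul_ne_zero (by exact_mod_cast h0) I_ne_zero
        exact ((continuousAt_const.div (continuous_id.sub continuous_const).continuousAt
          hne).tendsto).mono_left nhdsWithin_le_nhds
      refine ⟨_, (hlim.sub h4).congr' ?_⟩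
      filter_upwards [hfor] with z hz
      rw [hz, if_neg h0]
      push_cast
      ring
  · have hs1 : s - 1 ≠ 0 := by
      intro h1
      have : s = 1 := sub_eq_zero.mp h1
      rw [this] at h
      simp at h
    exact ⟨_, ((an_S (sum_le hα) h).continuousAt.sub (continuousAt_const.div
      (continuous_id.sub continuous_const).continuousAt hs1)).tendsto.mono_left nhdsWithin_le_nhds⟩

/-- **Averages over the primes with norm at most `N`.** -/
theorem avg_EL {m : ℤ} (hc : ∀ τ : ℝ, ∃ Λ, Ce α τ Λ ∧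
      meromorphicOrderAt Λ (1 + τ * I) = ((if τ = 0 then -m else 0 : ℤ) : WithTop ℤ)) :
    Tendsto (mn fun v => ∑ j, α v j) atTop (𝓝 ((m : ℝ) : ℂ)) :=
  taub_mn' (Nat.cast_nonneg b) (sum_le hα) fun _ hs => bd_S' hα hc hs

end

end Pool.Agent.Q284.CP
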