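import Pool.Agent.Q284.CP.Law
import Pool.Agent.Q284.CP.Tb
import Pool.Agent.Q284.JM.Fin

/-! The laws for the natural density. -/

set_option autoImplicit false
set_option linter.unusedSectionVars false

namespace Pool.Agent.Q284.CP

open Filter Topology MeasureTheory UnitAddTorus ComplexConjugate NumberField IsDedekindDomain
  Pool.Agent.W540.BE Pool.Agent.TH553.RS Pool.Agent.TH553.ST Pool.Agent.H341R2 Pool.Agent.Q284.IM
  Pool.Agent.Q284.JM

section

variable {K : Type} [Field K] [NumberField K] {r n : ℕ}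
  (x : Fin n → HeightOneSpectrum (𝓞 K) → UnitAddTorus (Fin r))

theorem fn_L {L : (HeightOneSpectrum (𝓞 K) → ℝ) → ℝ} (hL : Lf L) :
    Fn (fun f => L fun v => ∑ i, f (x i v)) n where
  add := fun f g hf hg => by
    simp only
    rw [← hL.add _ _ (bd_f x hf) (bd_f x hg)]
    congr 1
    funext v
    rw [Finset.sum_add_distrib]
  mul := fun a f hf => by
    simp only
    rw [← hL.smul a _ (bd_f x hf)]
    congr 1
    funext v
    rw [Finset.mul_sum]
  bd := fun f hf b hb => by
    refine hL.le _ _ (bd_f x hf) fun v => ?_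
    refine (Finset.abs_sum_le_sum_abs _ _).trans ((Finset.sum_le_sum fun i _ => hb _).trans ?_)
    simp

variable {N : ℕ} {G : Fin N → AddSubgroup (Fin r → ℤ)} {c : Fin N → ((Fin r → ℤ) →₀ ℤ)}
  {φ : (Fin r → ℤ) → ℤ} (h1 : ∀ k, (φ k : ℝ) = Bf G c fun y => (mFourier k y).re)
  (h2 : ∀ k, (Bf G c fun y => (mFourier k y).im) = 0)

include h1 h2

/-- **The natural density.** -/
theorem nat_law (hord : ∀ k Λ, Ce (em x k) 0 Λ → meromorphicOrderAt Λ 1 = ((-φ k : ℤ) : WithTop ℤ))
    (hline : ∀ (k : Fin r → ℤ) (τ : ℝ), ∃ Λ, Ce (em x k) τ Λ)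
    (h0 : ∀ (k : Fin r → ℤ) (τ : ℝ), τ ≠ 0 → ∀ Λ, Ce (em x k) τ Λ →
      meromorphicOrderAt Λ (1 + τ * Complex.I) = ((0 : ℤ) : WithTop ℤ))
    {f : UnitAddTorus (Fin r) → ℝ} (hf : Continuous f) :
    Tendsto (mn fun v => ∑ i, f (x i v)) atTop (𝓝 (Bf G c f)) := by
  have havg : ∀ k, Tendsto (mn fun v => ∑ i, em x k v i) atTop (𝓝 (((φ k : ℤ) : ℝ) : ℂ)) := by
    intro k
    refine avg_EL (norm_em x k) fun τ => ?_
    obtain ⟨Λ, hΛ⟩ := hline k τ
    refine ⟨Λ, hΛ, ?_⟩
    rcases eq_or_ne τ 0 with rfl | hτ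
    · rw [if_pos rfl]
      have e : (1 : ℂ) + ((0 : ℝ) : ℂ) * Complex.I = 1 := by simp
      rw [e]
      exact hord k Λ hΛ
    · rw [if_neg hτ]
      exact h0 k τ hτ Λ hΛ
  rw [Filter.tendsto_iff_ultrafilter]
  intro V hV
  obtain ⟨L, hL, hLV⟩ := exists_lf (K := K) hV
  obtain ⟨D, hD⟩ := fn_B G c
  have hre : ∀ k : Fin r → ℤ, Continuous fun y : UnitAddTorus (Fin r) => (mFourier k y).re :=
    fun k => Complex.continuous_re.comp (mFourier k).continuous
  have him : ∀ k : Fin r → ℤ, Continuous fun y : UnitAddTorus (Fin r) => (mFourier k y).im :=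
    fun k => Complex.continuous_im.comp (mFourier k).continuous
  have key := (fn_L x hL).ext hD (fun k => by
      rw [← h1]
      have h3 := (hLV _ (bd_f x (hre k)))
      have h4 := ((Complex.continuous_re.tendsto _).comp (havg k)).mono_left hV
      refine tendsto_nhds_unique h3 ?_
      rw [Complex.ofReal_re] at h4
      refine h4.congr fun N => ?_
      simp only [Function.comp]
      rw [re_mn]
      congr 1
      funext v
      rw [Complex.re_sum]
      rfl) (fun k => by
      rw [h2]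
      have h3 := (hLV _ (bd_f x (him k)))
      have h4 := ((Complex.continuous_im.tendsto _).comp (havg k)).mono_left hV
      refine tendsto_nhds_unique h3 ?_
      rw [Complex.ofReal_im] at h4
      refine h4.congr fun N => ?_
      simp only [Function.comp]
      rw [im_mn]
      congr 1
      funext v
      rw [Complex.im_sum]
      rfl) hf
  rw [← key]
  exact hLV _ (bd_f x hf)

/-- no zeros and no poles on the line -/
theorem line_of_nat (hnat : ∀ f : UnitAddTorus (Fin r) → ℝ, Continuous f →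
      Tendsto (mn fun v => ∑ i, f (x i v)) atTop (𝓝 (Bf G c f))) {k : Fin r → ℤ} {τ : ℝ}
    (hτ : τ ≠ 0) {Λ : ℂ → ℂ} (hΛ : Ce (em x k) τ Λ) :
    meromorphicOrderAt Λ (1 + τ * Complex.I) = ((0 : ℤ) : WithTop ℤ) := by
  obtain ⟨m, hm1, hm2⟩ := order_EL (norm_em x k) hΛ
  set U : Ultrafilter ℝ := Ultrafilter.of (𝓝[>] 0) with hU
  have hU' : (U : Filter ℝ) ≤ 𝓝[>] 0 := Ultrafilter.of_le _
  have h3 := hnat (fun y => (mFourier k y).re) (Complex.continuous_re.comp (mFourier k).continuous)
  have h4 := hnat (fun y => (mFourier k y).im) (Complex.continuous_im.comp (mFourier k).continuous)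
  rw [← h1 k] at h3
  rw [h2 k] at h4
  have h5 : Tendsto (mn fun v => ∑ i, em x k v i) atTop (𝓝 (((φ k : ℤ) : ℝ) : ℂ)) := by
    have h6 := ((Complex.continuous_ofReal.tendsto _).comp h3).add
      (((Complex.continuous_ofReal.tendsto _).comp h4).mul_const Complex.I)
    rw [Complex.ofReal_zero, zero_mul, add_zero] at h6
    refine h6.congr fun N => ?_
    simp only [Function.comp]
    rw [← Complex.re_add_im (mn (fun v => ∑ i, em x k v i) N), re_mn, im_mn]
    have e1 : (fun v => (∑ i, em x k v i).re) = fun v => ∑ i, (mFourier k (x i v)).re := by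
      funext v
      rw [Complex.re_sum]
      rfl
    have e2 : (fun v => (∑ i, em x k v i).im) = fun v => ∑ i, (mFourier k (x i v)).im := by
      funext v
      rw [Complex.im_sum]
      rfl
    rw [e1, e2]
  have h6 := mean_edge (g := fun v => ∑ i, em x k v i) (B := n) (fun v => by
    refine (norm_sum_le _ _).trans ?_
    simp [norm_em]) _ (mn_tendsto h5) τ
  rw [if_neg hτ] at h6
  have h7 := M_of_tendsto hU' h6
  rw [(hm2 U hU').1] at h7
  have h8 : m = 0 := by
    have : (m : ℝ) = 0 := by linarith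
    exact_mod_cast this
  rw [hm1, h8]

end

end Pool.Agent.Q284.CP
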