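import Pool.Agent.Q284.CP.Tor

/-! The measures of the positive definite functions which are periodic and have finite support modulo
the periods. -/

set_option autoImplicit false

namespace Pool.Agent.Q284.CP

open Filter Topology MeasureTheory UnitAddTorus ComplexConjugate Pool.Agent.Q284.IM

section

variable {r : ℕ}

/-- the periods -/
def per {Λ : Type} [AddCommGroup Λ] {ψ : Λ → ℤ} (h : PD ψ) : AddSubgroup Λ where
  carrier := {k | ψ k = ψ 0}
  zero_mem' := rfl
  add_mem' := fun {a b} ha hb => by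
    have h1 := h.periodic (k := b) hb a
    rw [Set.mem_ofPred_eq] at *
    rw [h1, ha]
  neg_mem' := fun {a} ha => by
    rw [Set.mem_ofPred_eq] at *
    rw [h.symm, ha]

theorem mem_per {Λ : Type} [AddCommGroup Λ] {ψ : Λ → ℤ} (h : PD ψ) {k : Λ} :
    k ∈ per h ↔ ψ k = ψ 0 := Iff.rfl

/-- representatives -/
theorem exists_rep {Λ : Type} [AddCommGroup Λ] {ψ : Λ → ℤ} (h : PD ψ)
    (hT : ∃ T : Finset Λ, ∀ a, ψ a ≠ 0 → ∃ b ∈ T, ψ (a - b) = ψ 0) :
    ∃ R : Finset Λ, (∀ a ∈ R, ∀ b ∈ R, a - b ∈ per h → a = b) ∧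
      ∀ a, ψ a ≠ 0 → ∃ b ∈ R, a - b ∈ per h := by
  classical
  obtain ⟨T, hT⟩ := hT
  let rep : Λ → Λ := fun a => Quotient.out (QuotientAddGroup.mk a : Λ ⧸ per h)
  have hrep : ∀ a, a - rep a ∈ per h := by
    intro a
    have h1 : (QuotientAddGroup.mk (rep a) : Λ ⧸ per h) = QuotientAddGroup.mk a :=
      Quotient.out_eq _
    have h2 := QuotientAddGroup.eq.1 h1
    rwa [neg_add_eq_sub] at h2
  have hrep' : ∀ a b, a - b ∈ per h → rep a = rep b := by
    intro a b hab
    have h1 : (QuotientAddGroup.mk b : Λ ⧸ per h) = QuotientAddGroup.mk a :=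
      QuotientAddGroup.eq.2 (by rwa [neg_add_eq_sub])
    simp only [rep, h1]
  refine ⟨T.image rep, fun a ha b hb hab => ?_, fun a ha => ?_⟩
  · obtain ⟨a', -, rfl⟩ := Finset.mem_image.1 ha
    obtain ⟨b', -, rfl⟩ := Finset.mem_image.1 hb
    refine hrep' a' b' ?_
    have h1 : a' - b' = (a' - rep a') + (rep a' - rep b') - (b' - rep b') := by abel
    rw [h1]
    exact (per h).sub_mem ((per h).add_mem (hrep a') hab) (hrep b')
  · obtain ⟨b, hb, hab⟩ := hT a ha
    refine ⟨rep b, Finset.mem_image_of_mem _ hb, ?_⟩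
    have h1 : a - rep b = (a - b) + (b - rep b) := by abel
    rw [h1]
    exact (per h).add_mem hab (hrep b)

/-- real trigonometric polynomials with integer coefficients -/
noncomputable def tp (c : (Fin r → ℤ) →₀ ℤ) (x : UnitAddTorus (Fin r)) : ℝ :=
  c.sum fun k n => (n : ℝ) * (mFourier k x).re

theorem cont_tp (c : (Fin r → ℤ) →₀ ℤ) : Continuous (tp c) := by
  unfold tp Finsupp.sum
  refine continuous_finsetSum _ fun k _ => continuous_const.mul ?_
  exact Complex.continuous_re.comp (mFourier k).continuous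

theorem bd_tp (c : (Fin r → ℤ) →₀ ℤ) : ∃ B : ℝ, 0 ≤ B ∧ ∀ x, |tp c x| ≤ B := by
  refine ⟨c.sum fun _ n => |(n : ℝ)|, ?_, fun x => ?_⟩
  · unfold Finsupp.sum
    exact Finset.sum_nonneg fun k _ => abs_nonneg _
  · unfold tp Finsupp.sum
    refine (Finset.abs_sum_le_sum_abs _ _).trans (Finset.sum_le_sum fun k _ => ?_)
    rw [abs_mul]
    calc |(c k : ℝ)| * |(mFourier k x).re| ≤ |(c k : ℝ)| * 1 := by
          refine mul_le_mul_of_nonneg_left ?_ (abs_nonneg _)
          exact (Complex.abs_re_le_norm _).trans (norm_mF k x).le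
      _ = _ := mul_one _

theorem int_cont {K : AddSubgroup (Fin r → ℤ)} {E : Type} [NormedAddCommGroup E]
    {f : UnitAddTorus (Fin r) → E} (hf : Continuous f) :
    Integrable (fun x : ann K => f x.1) (hr K) :=
  (hf.comp continuous_subtype_val).integrable_of_hasCompactSupport
    (HasCompactSupport.of_compactSpace _)

variable {ψ : (Fin r → ℤ) → ℤ} (h : PD ψ) {R : Finset (Fin r → ℤ)}
  (hR1 : ∀ a ∈ R, ∀ b ∈ R, a - b ∈ per h → a = b)
  (hR2 : ∀ a, ψ a ≠ 0 → ∃ b ∈ R, a - b ∈ per h)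

/-- the density -/
noncomputable def dn (ψ : (Fin r → ℤ) → ℤ) (R : Finset (Fin r → ℤ)) : (Fin r → ℤ) →₀ ℤ :=
  ∑ b ∈ R, Finsupp.single b (ψ b)

theorem tp_dn (x : UnitAddTorus (Fin r)) :
    tp (dn ψ R) x = ∑ b ∈ R, (ψ b : ℝ) * (mFourier b x).re := by
  classical
  unfold tp dn
  rw [← Finsupp.sum_finsetSum_index (fun k => by simp) (fun k m n => by push_cast; ring)]
  refine Finset.sum_congr rfl fun b _ => ?_
  rw [Finsupp.sum_single_index (by simp)]

include hR1 hR2

theorem sum_ind (k : Fin r → ℤ) : ∑ b ∈ R, (ψ b : ℂ) *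
    (∫ x : ann (per h), mFourier (k - b) x.1 ∂(hr (per h))) = ψ k := by
  classical
  have h1 : ∀ b ∈ R, (ψ b : ℂ) * (∫ x : ann (per h), mFourier (k - b) x.1 ∂(hr (per h))) =
      if k - b ∈ per h then (ψ k : ℂ) else 0 := by
    intro b _
    split_ifs with hb
    · rw [int_const _ hb, mul_one]
      have h2 := h.periodic (k := k - b) hb b
      rw [add_sub_cancel] at h2
      rw [h2]
    · rw [int_zero _ hb, mul_zero]
  rw [Finset.sum_congr rfl h1]
  by_cases hk : ψ k = 0
  · rw [hk]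
    simp
  · obtain ⟨b, hb, hbk⟩ := hR2 k hk
    rw [Finset.sum_eq_single b, if_pos hbk]
    · intro b' hb' hne
      rw [if_neg]
      intro hb''
      refine hne (hR1 b' hb' b hb ?_)
      have h2 : b' - b = (k - b) - (k - b') := by abel
      rw [h2]
      exact (per h).sub_mem hbk hb''
    · intro h2
      exact absurd hb h2

/-- **The Fourier coefficients.** -/
theorem coef (k : Fin r → ℤ) : ∫ x : ann (per h), mFourier k x.1 * (tp (dn ψ R) x.1 : ℂ)
    ∂(hr (per h)) = ψ k := by
  have h1 : ∀ x : ann (per h), mFourier k x.1 * (tp (dn ψ R) x.1 : ℂ) =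
      (1 / 2 : ℂ) * (∑ b ∈ R, (ψ b : ℂ) * mFourier (k - b) x.1 +
        ∑ b ∈ R, (ψ b : ℂ) * conj (mFourier (-k - b) x.1)) := by
    intro x
    rw [tp_dn, Complex.ofReal_sum, Finset.mul_sum, ← Finset.sum_add_distrib, Finset.mul_sum]
    refine Finset.sum_congr rfl fun b _ => ?_
    rw [show k - b = -b + k by abel, show -k - b = -b + -k by abel, mFourier_add, mFourier_add,
      mFourier_neg, mFourier_neg, map_mul, Complex.conj_conj, Complex.conj_conj]
    have h2 : (((mFourier b x.1).re : ℝ) : ℂ) = (mFourier b x.1 + conj (mFourier b x.1)) / 2 := by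
      rw [Complex.add_conj]
      push_cast
      ring
    push_cast
    rw [h2]
    ring
  simp_rw [h1]
  have hcm : ∀ b : Fin r → ℤ, Continuous fun x : UnitAddTorus (Fin r) =>
      (ψ b : ℂ) * mFourier (k - b) x :=
    fun b => continuous_const.mul (mFourier (k - b)).continuous
  have hcc : ∀ b : Fin r → ℤ, Continuous fun x : UnitAddTorus (Fin r) =>
      (ψ b : ℂ) * conj (mFourier (-k - b) x) :=
    fun b => continuous_const.mul (Complex.continuous_conj.comp (mFourier (-k - b)).continuous)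
  rw [integral_const_mul, integral_add, integral_finsetSum, integral_finsetSum]
  · have h3 : ∀ b ∈ R, ∫ x : ann (per h), (ψ b : ℂ) * mFourier (k - b) x.1 ∂(hr (per h)) =
        (ψ b : ℂ) * ∫ x : ann (per h), mFourier (k - b) x.1 ∂(hr (per h)) :=
      fun b _ => integral_const_mul _ _
    have h4 : ∀ b ∈ R, ∫ x : ann (per h), (ψ b : ℂ) * conj (mFourier (-k - b) x.1) ∂(hr (per h)) =
        conj ((ψ b : ℂ) * ∫ x : ann (per h), mFourier (-k - b) x.1 ∂(hr (per h))) := by
      intro b _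
      rw [integral_const_mul, integral_conj, map_mul, map_intCast]
    rw [Finset.sum_congr rfl h3, Finset.sum_congr rfl h4, ← map_sum, sum_ind h hR1 hR2,
      sum_ind h hR1 hR2, map_intCast, h.symm]
    ring
  · intro b _
    exact int_cont (f := fun x => (ψ b : ℂ) * conj (mFourier (-k - b) x)) (hcc b)
  · intro b _
    exact int_cont (f := fun x => (ψ b : ℂ) * mFourier (k - b) x) (hcm b)
  · exact int_cont (f := fun x => ∑ b ∈ R, (ψ b : ℂ) * mFourier (k - b) x)
      (continuous_finsetSum _ fun b _ => hcm b)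
  · exact int_cont (f := fun x => ∑ b ∈ R, (ψ b : ℂ) * conj (mFourier (-k - b) x))
      (continuous_finsetSum _ fun b _ => hcc b)

theorem coef_re (k : Fin r → ℤ) : ∫ x : ann (per h), (mFourier k x.1).re * tp (dn ψ R) x.1
    ∂(hr (per h)) = ψ k := by
  have h1 := congrArg Complex.re (coef h hR1 hR2 k)
  rw [Complex.intCast_re] at h1
  rw [← h1, ← RCLike.re_eq_complex_re, ← integral_re]
  · refine integral_congr_ae (Eventually.of_forall fun x => ?_)
    simp
  · refine int_cont (f := fun x => mFourier k x * (tp (dn ψ R) x : ℂ)) ?_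
    exact (mFourier k).continuous.mul (Complex.continuous_ofReal.comp (cont_tp _))

theorem coef_im (k : Fin r → ℤ) : ∫ x : ann (per h), (mFourier k x.1).im * tp (dn ψ R) x.1
    ∂(hr (per h)) = 0 := by
  have h1 := congrArg Complex.im (coef h hR1 hR2 k)
  rw [Complex.intCast_im] at h1
  rw [← h1, ← RCLike.im_eq_complex_im, ← integral_im]
  · refine integral_congr_ae (Eventually.of_forall fun x => ?_)
    simp
  · refine int_cont (f := fun x => mFourier k x * (tp (dn ψ R) x : ℂ)) ?_
    exact (mFourier k).continuous.mul (Complex.continuous_ofReal.comp (cont_tp _))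

theorem coef_zero : ∫ x : ann (per h), tp (dn ψ R) x.1 ∂(hr (per h)) = ψ 0 := by
  have h1 := coef_re h hR1 hR2 0
  simpa [mFourier_zero] using h1

/-- squares of trigonometric polynomials -/
theorem sq_nonneg_span {g : C(UnitAddTorus (Fin r), ℂ)}
    (hg : g ∈ Submodule.span ℂ (Set.range (mFourier (d := Fin r)))) :
    0 ≤ ∫ x : ann (per h), ‖g x.1‖ ^ 2 * tp (dn ψ R) x.1 ∂(hr (per h)) := by
  classical
  rw [Finsupp.mem_span_range_iff_exists_finsupp] at hg
  obtain ⟨c, rfl⟩ := hg
  have e0 : ∀ x, (c.sum fun i a => a • mFourier i : C(UnitAddTorus (Fin r), ℂ)) x =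
      ∑ a ∈ c.support, c a * mFourier a x := by
    intro x
    unfold Finsupp.sum
    rw [ContinuousMap.sum_apply]
    rfl
  have e1 : ∀ x, ‖(c.sum fun i a => a • mFourier i : C(UnitAddTorus (Fin r), ℂ)) x‖ ^ 2 =
      ∑ a ∈ c.support, ∑ b ∈ c.support, ((c a * conj (c b)).re * (mFourier (a - b) x).re -
        (c a * conj (c b)).im * (mFourier (a - b) x).im) := by
    intro x
    have h1 : ((‖∑ a ∈ c.support, c a * mFourier a x‖ ^ 2 : ℝ) : ℂ) =
        ∑ a ∈ c.support, ∑ b ∈ c.support, (c a * conj (c b)) * mFourier (a - b) x := by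
      rw [Complex.ofReal_pow, ← Complex.mul_conj', map_sum, Finset.sum_mul_sum]
      refine Finset.sum_congr rfl fun a _ => Finset.sum_congr rfl fun b _ => ?_
      rw [sub_eq_add_neg, mFourier_add, mFourier_neg, map_mul]
      ring
    have h2 := congrArg Complex.re h1
    rw [Complex.ofReal_re, Complex.re_sum] at h2
    rw [e0, h2]
    refine Finset.sum_congr rfl fun a _ => ?_
    rw [Complex.re_sum]
    exact Finset.sum_congr rfl fun b _ => Complex.mul_re _ _
  simp_rw [e1]
  have e2 : ∀ x : ann (per h), (∑ a ∈ c.support, ∑ b ∈ c.support,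
      ((c a * conj (c b)).re * (mFourier (a - b) x.1).re -
        (c a * conj (c b)).im * (mFourier (a - b) x.1).im)) * tp (dn ψ R) x.1 =
      ∑ a ∈ c.support, ∑ b ∈ c.support,
      ((c a * conj (c b)).re * ((mFourier (a - b) x.1).re * tp (dn ψ R) x.1) -
        (c a * conj (c b)).im * ((mFourier (a - b) x.1).im * tp (dn ψ R) x.1)) := by
    intro x
    rw [Finset.sum_mul]
    refine Finset.sum_congr rfl fun a _ => ?_
    rw [Finset.sum_mul]
    refine Finset.sum_congr rfl fun b _ => ?_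
    ring
  simp_rw [e2]
  have hc1 : ∀ k : Fin r → ℤ, Continuous fun x : UnitAddTorus (Fin r) =>
      (mFourier k x).re * tp (dn ψ R) x :=
    fun k => (Complex.continuous_re.comp (mFourier k).continuous).mul (cont_tp _)
  have hc2 : ∀ k : Fin r → ℤ, Continuous fun x : UnitAddTorus (Fin r) =>
      (mFourier k x).im * tp (dn ψ R) x :=
    fun k => (Complex.continuous_im.comp (mFourier k).continuous).mul (cont_tp _)
  rw [integral_finsetSum _ fun a _ => int_cont (f := fun x => ∑ b ∈ c.support,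
      ((c a * conj (c b)).re * ((mFourier (a - b) x).re * tp (dn ψ R) x) -
        (c a * conj (c b)).im * ((mFourier (a - b) x).im * tp (dn ψ R) x)))
      (continuous_finsetSum _ fun b _ => (continuous_const.mul (hc1 _)).sub
        (continuous_const.mul (hc2 _)))]
  have e3 : ∀ a ∈ c.support, ∫ x : ann (per h), (∑ b ∈ c.support,
      ((c a * conj (c b)).re * ((mFourier (a - b) x.1).re * tp (dn ψ R) x.1) -
        (c a * conj (c b)).im * ((mFourier (a - b) x.1).im * tp (dn ψ R) x.1))) ∂(hr (per h)) =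
      ∑ b ∈ c.support, ((c a).re * (c b).re * (ψ (a - b) : ℝ) +
        (c a).im * (c b).im * (ψ (a - b) : ℝ)) := by
    intro a _
    rw [integral_finsetSum _ fun b _ => int_cont (f := fun x =>
      ((c a * conj (c b)).re * ((mFourier (a - b) x).re * tp (dn ψ R) x) -
        (c a * conj (c b)).im * ((mFourier (a - b) x).im * tp (dn ψ R) x)))
      ((continuous_const.mul (hc1 _)).sub (continuous_const.mul (hc2 _)))]
    refine Finset.sum_congr rfl fun b _ => ?_
    rw [integral_sub (int_cont (f := fun x => (c a * conj (c b)).re *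
        ((mFourier (a - b) x).re * tp (dn ψ R) x)) (continuous_const.mul (hc1 _)))
      (int_cont (f := fun x => (c a * conj (c b)).im *
        ((mFourier (a - b) x).im * tp (dn ψ R) x)) (continuous_const.mul (hc2 _))),
      integral_const_mul, integral_const_mul,
      coef_re h hR1 hR2, coef_im h hR1 hR2, mul_zero, sub_zero]
    simp only [Complex.mul_re, Complex.conj_re, Complex.conj_im]
    ring
  rw [Finset.sum_congr rfl e3]
  have key : ∀ f : ℂ → ℝ, f 0 = 0 → 0 ≤ ∑ a ∈ c.support, ∑ b ∈ c.support,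
      f (c a) * f (c b) * (ψ (a - b) : ℝ) := by
    intro f hf
    have h1 := h.nonneg (c.mapRange f hf)
    unfold frm at h1
    rw [Finsupp.sum_of_support_subset _ (Finsupp.support_mapRange) _ (by
      intro a _
      simp)] at h1
    refine h1.trans (le_of_eq (Finset.sum_congr rfl fun a _ => ?_))
    rw [Finsupp.sum_of_support_subset _ (Finsupp.support_mapRange) _ (by
      intro a _
      simp)]
    rfl
  have h1 := key Complex.re rfl
  have h2 := key Complex.im rfl
  have e4 : ∑ a ∈ c.support, ∑ b ∈ c.support, ((c a).re * (c b).re * (ψ (a - b) : ℝ) +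
        (c a).im * (c b).im * (ψ (a - b) : ℝ)) =
      (∑ a ∈ c.support, ∑ b ∈ c.support, (c a).re * (c b).re * (ψ (a - b) : ℝ)) +
        ∑ a ∈ c.support, ∑ b ∈ c.support, (c a).im * (c b).im * (ψ (a - b) : ℝ) := by
    rw [← Finset.sum_add_distrib]
    refine Finset.sum_congr rfl fun a _ => ?_
    rw [← Finset.sum_add_distrib]
  rw [e4]
  exact add_nonneg h1 h2

/-- **Positivity.** -/
theorem fun_nonneg {f : UnitAddTorus (Fin r) → ℝ} (hf : Continuous f) (hf0 : ∀ x, 0 ≤ f x) :
    0 ≤ ∫ x : ann (per h), f x.1 * tp (dn ψ R) x.1 ∂(hr (per h)) := by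
  obtain ⟨B, hB0, hB⟩ := bd_tp (dn ψ R)
  set g : C(UnitAddTorus (Fin r), ℂ) := ⟨fun x => ((Real.sqrt (f x) : ℝ) : ℂ),
    Complex.continuous_ofReal.comp (Real.continuous_sqrt.comp hf)⟩ with hg
  have hgn : ∀ x, ‖g x‖ ^ 2 = f x := by
    intro x
    rw [hg]
    simp only [ContinuousMap.coe_mk]
    rw [Complex.norm_real, Real.norm_eq_abs, sq_abs, Real.sq_sqrt (hf0 x)]
  refine le_of_forall_pos_le_add fun η hη => ?_
  -- a good approximation
  obtain ⟨δ, hδ, hδ1, hδη⟩ : ∃ δ : ℝ, 0 < δ ∧ δ ≤ 1 ∧ δ * (2 * ‖g‖ + 1) * B ≤ η := by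
    have h1 : 0 < (2 * ‖g‖ + 1) * (B + 1) := by positivity
    refine ⟨min 1 (η / ((2 * ‖g‖ + 1) * (B + 1))), lt_min one_pos (div_pos hη h1), min_le_left _ _,
      ?_⟩
    have h2 : min 1 (η / ((2 * ‖g‖ + 1) * (B + 1))) ≤ η / ((2 * ‖g‖ + 1) * (B + 1)) :=
      min_le_right _ _
    calc min 1 (η / ((2 * ‖g‖ + 1) * (B + 1))) * (2 * ‖g‖ + 1) * B
        ≤ η / ((2 * ‖g‖ + 1) * (B + 1)) * (2 * ‖g‖ + 1) * B := by gcongr
      _ ≤ η / ((2 * ‖g‖ + 1) * (B + 1)) * (2 * ‖g‖ + 1) * (B + 1) := by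
          gcongr
          linarith
      _ = η := by
          have := h1.ne'
          field_simp
  have hmem : g ∈ closure ((Submodule.span ℂ (Set.range (mFourier (d := Fin r))) :
      Submodule ℂ C(UnitAddTorus (Fin r), ℂ)) : Set C(UnitAddTorus (Fin r), ℂ)) := by
    rw [← Submodule.topologicalClosure_coe, span_mFourier_closure_eq_top]
    trivial
  obtain ⟨q, hq, hgq⟩ := Metric.mem_closure_iff.1 hmem δ hδ
  have h1 := sq_nonneg_span h hR1 hR2 hq
  have hbd : ∀ x, |‖q x‖ ^ 2 - f x| ≤ δ * (2 * ‖g‖ + 1) := by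
    intro x
    rw [← hgn x]
    have h2 : ‖q x - g x‖ ≤ δ := by
      rw [norm_sub_rev, ← ContinuousMap.sub_apply]
      refine ((g - q).norm_coe_le_norm x).trans ?_
      rw [← dist_eq_norm]
      exact hgq.le
    have h3 : ‖g x‖ ≤ ‖g‖ := g.norm_coe_le_norm x
    have h4 := abs_norm_sub_norm_le (q x) (g x)
    have h5 : ‖q x‖ ≤ ‖g‖ + 1 := by
      have := (abs_le.1 h4).2
      linarith
    have h6 : ‖q x‖ ^ 2 - ‖g x‖ ^ 2 = (‖q x‖ - ‖g x‖) * (‖q x‖ + ‖g x‖) := by ring
    rw [h6, abs_mul, abs_of_nonneg (by positivity : 0 ≤ ‖q x‖ + ‖g x‖)]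
    refine mul_le_mul (h4.trans h2) (by linarith) (by positivity) hδ.le
  have hi1 : Integrable (fun x : ann (per h) => ‖q x.1‖ ^ 2 * tp (dn ψ R) x.1) (hr (per h)) :=
    int_cont (f := fun x => ‖q x‖ ^ 2 * tp (dn ψ R) x) ((q.continuous.norm.pow 2).mul (cont_tp _))
  have hi2 : Integrable (fun x : ann (per h) => f x.1 * tp (dn ψ R) x.1) (hr (per h)) :=
    int_cont (f := fun x => f x * tp (dn ψ R) x) (hf.mul (cont_tp _))
  have h2 : (∫ x : ann (per h), ‖q x.1‖ ^ 2 * tp (dn ψ R) x.1 ∂(hr (per h))) -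
      ∫ x : ann (per h), f x.1 * tp (dn ψ R) x.1 ∂(hr (per h)) ≤ η := by
    rw [← integral_sub hi1 hi2]
    have h3 : ∫ x : ann (per h), (‖q x.1‖ ^ 2 * tp (dn ψ R) x.1 - f x.1 * tp (dn ψ R) x.1)
        ∂(hr (per h)) ≤ ∫ x : ann (per h), η ∂(hr (per h)) := by
      refine integral_mono (hi1.sub hi2) (integrable_const _) fun x => ?_
      have h4 : ‖q x.1‖ ^ 2 * tp (dn ψ R) x.1 - f x.1 * tp (dn ψ R) x.1 ≤
          |‖q x.1‖ ^ 2 - f x.1| * |tp (dn ψ R) x.1| := by
        rw [← sub_mul, ← abs_mul]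
        exact le_abs_self _
      refine h4.trans ((mul_le_mul (hbd x.1) (hB x.1) (abs_nonneg _) (by positivity)).trans hδη)
    refine h3.trans (le_of_eq ?_)
    simp
  linarith

/-- the density is not negative on the subgroup -/
theorem tp_nonneg {x : UnitAddTorus (Fin r)} (hx : x ∈ ann (per h)) : 0 ≤ tp (dn ψ R) x := by
  set f : UnitAddTorus (Fin r) → ℝ := fun x => max (-tp (dn ψ R) x) 0 with hf
  have hfc : Continuous f := (cont_tp _).neg.max continuous_const
  have h1 := fun_nonneg h hR1 hR2 hfc fun x => le_max_right _ _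
  have h2 : ∀ x, f x * tp (dn ψ R) x = -(f x ^ 2) := by
    intro x
    rw [hf]
    simp only
    rcases le_total 0 (tp (dn ψ R) x) with h | h
    · rw [max_eq_right (by linarith)]
      ring
    · rw [max_eq_left (by linarith)]
      ring
  simp_rw [h2] at h1
  rw [integral_neg] at h1
  have hc2 : Continuous fun x : ann (per h) => f x.1 ^ 2 :=
    (hfc.comp continuous_subtype_val).pow 2
  have h3 : ∫ x : ann (per h), f x.1 ^ 2 ∂(hr (per h)) = 0 :=
    le_antisymm (by linarith) (integral_nonneg fun x => sq_nonneg _)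
  rw [integral_eq_zero_iff_of_nonneg (fun x => sq_nonneg _)
    (int_cont (f := fun x => f x ^ 2) (hfc.pow 2))] at h3
  have hopen : (hr (per h)).IsOpenPosMeasure := by
    unfold hr
    infer_instance
  have h4 := (hc2.ae_eq_iff_eq (hr (per h)) continuous_const).1 h3
  have h5 := congrFun h4 ⟨x, hx⟩
  simp only at h5
  have h6 : f x = 0 := by
    exact pow_eq_zero_iff (two_ne_zero) |>.1 h5
  have h7 : -tp (dn ψ R) x ≤ f x := le_max_left _ _
  linarith

end

end Pool.Agent.Q284.CP
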