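import Pool.Agent.Q284.CP.Coh

/-! Closed subgroups of the torus and their Haar measures. -/

set_option autoImplicit false

namespace Pool.Agent.Q284.CP

open Filter Topology MeasureTheory UnitAddTorus ComplexConjugate

section

variable {r : ℕ}

/-- the pairing -/
noncomputable def pr (k : Fin r → ℤ) (x : UnitAddTorus (Fin r)) : UnitAddCircle := ∑ i, k i • x i

theorem mFourier_eq (k : Fin r → ℤ) (x : UnitAddTorus (Fin r)) :
    mFourier k x = ((AddCircle.toCircle (pr k x) : Circle) : ℂ) := by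
  unfold mFourier pr
  simp only [ContinuousMap.coe_mk, fourier_apply]
  have h : ∀ s : Finset (Fin r), ((AddCircle.toCircle (∑ i ∈ s, k i • x i) : Circle) : ℂ) =
      ∏ i ∈ s, ((AddCircle.toCircle (k i • x i) : Circle) : ℂ) := by
    intro s
    classical
    induction s using Finset.induction_on with
    | empty => simp
    | insert a s ha ih =>
      rw [Finset.sum_insert ha, Finset.prod_insert ha, AddCircle.toCircle_add, Circle.coe_mul, ih]
  exact (h _).symm

theorem mFourier_one_iff {k : Fin r → ℤ} {x : UnitAddTorus (Fin r)} :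
    mFourier k x = 1 ↔ pr k x = 0 := by
  rw [mFourier_eq]
  constructor
  · intro h
    have h1 : AddCircle.toCircle (pr k x) = AddCircle.toCircle (0 : UnitAddCircle) := by
      rw [AddCircle.toCircle_zero]
      exact Circle.ext (by rw [h, Circle.coe_one])
    exact AddCircle.injective_toCircle one_ne_zero h1
  · intro h
    rw [h, AddCircle.toCircle_zero, Circle.coe_one]

theorem norm_mF (k : Fin r → ℤ) (x : UnitAddTorus (Fin r)) : ‖mFourier k x‖ = 1 := by
  rw [mFourier_eq, Circle.norm_coe]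

theorem pr_add (k : Fin r → ℤ) (x y : UnitAddTorus (Fin r)) : pr k (x + y) = pr k x + pr k y := by
  unfold pr
  rw [← Finset.sum_add_distrib]
  refine Finset.sum_congr rfl fun i _ => ?_
  rw [Pi.add_apply, smul_add]

theorem pr_neg (k : Fin r → ℤ) (x : UnitAddTorus (Fin r)) : pr k (-x) = -pr k x := by
  unfold pr
  rw [← Finset.sum_neg_distrib]
  refine Finset.sum_congr rfl fun i _ => ?_
  rw [Pi.neg_apply, smul_neg]

theorem pr_zero (k : Fin r → ℤ) : pr k (0 : UnitAddTorus (Fin r)) = 0 := by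
  unfold pr
  simp

theorem mF_add (k : Fin r → ℤ) (x y : UnitAddTorus (Fin r)) :
    mFourier k (x + y) = mFourier k x * mFourier k y := by
  rw [mFourier_eq, mFourier_eq, mFourier_eq, pr_add, AddCircle.toCircle_add, Circle.coe_mul]

/-- the annihilator -/
def ann (K : AddSubgroup (Fin r → ℤ)) : AddSubgroup (UnitAddTorus (Fin r)) where
  carrier := {x | ∀ k ∈ K, mFourier k x = 1}
  zero_mem' := fun k _ => mFourier_one_iff.2 (pr_zero k)
  add_mem' := fun {x y} hx hy k hk => by rw [mF_add, hx k hk, hy k hk, one_mul]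
  neg_mem' := fun {x} hx k hk => by
    rw [mFourier_one_iff, pr_neg, mFourier_one_iff.1 (hx k hk), neg_zero]

theorem mem_ann {K : AddSubgroup (Fin r → ℤ)} {x : UnitAddTorus (Fin r)} :
    x ∈ ann K ↔ ∀ k ∈ K, mFourier k x = 1 := Iff.rfl

theorem isClosed_ann (K : AddSubgroup (Fin r → ℤ)) :
    IsClosed (ann K : Set (UnitAddTorus (Fin r))) := by
  have h : (ann K : Set (UnitAddTorus (Fin r))) = ⋂ k ∈ K, {x | mFourier k x = 1} := by
    ext x
    simp only [SetLike.mem_coe, mem_ann, Set.mem_iInter, Set.mem_ofPred_eq]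
  rw [h]
  exact isClosed_biInter fun k _ => isClosed_eq (mFourier k).continuous continuous_const

/-- rational circles -/
noncomputable def rc : AddCircle (1 : ℚ) →+ UnitAddCircle :=
  QuotientAddGroup.map _ _ (Rat.castHom ℝ).toAddMonoidHom (by
    rintro x hx
    obtain ⟨n, rfl⟩ := AddSubgroup.mem_zmultiples_iff.1 hx
    refine AddSubgroup.mem_comap.2 (AddSubgroup.mem_zmultiples_iff.2 ⟨n, ?_⟩)
    simp)

theorem rc_inj {x : AddCircle (1 : ℚ)} (h : rc x = 0) : x = 0 := by
  obtain ⟨y, rfl⟩ := QuotientAddGroup.mk_surjective x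
  have h1 : ((y : ℝ) : UnitAddCircle) = 0 := h
  rw [AddCircle.coe_eq_zero_iff] at h1
  obtain ⟨n, hn⟩ := h1
  have h2 : (y : ℚ) = n := by
    have : (n : ℝ) = (y : ℝ) := by simpa using hn
    exact_mod_cast this.symm
  refine (AddCircle.coe_eq_zero_iff _).2 ⟨n, ?_⟩
  rw [h2]
  simp

/-- the annihilator of the annihilator -/
theorem exists_ann {K : AddSubgroup (Fin r → ℤ)} {k : Fin r → ℤ} (hk : k ∉ K) :
    ∃ x ∈ ann K, mFourier k x ≠ 1 := by
  have h1 : (QuotientAddGroup.mk k : (Fin r → ℤ) ⧸ K) ≠ 0 := by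
    rwa [Ne, QuotientAddGroup.eq_zero_iff]
  obtain ⟨c, hc⟩ := CharacterModule.exists_character_apply_ne_zero_of_ne_zero h1
  set f : (Fin r → ℤ) →+ UnitAddCircle := (rc.comp (c : ((Fin r → ℤ) ⧸ K) →+ AddCircle (1 : ℚ))).comp
    (QuotientAddGroup.mk' K) with hf
  have hfe : ∀ l, f l = pr l fun i => f (Pi.single i 1) := by
    intro l
    unfold pr
    have h2 : l = ∑ i, l i • (Pi.single i (1 : ℤ) : Fin r → ℤ) := by
      funext j
      rw [Finset.sum_apply, Finset.sum_eq_single j]
      · simp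
      · intro i _ hij
        simp [Pi.single_eq_of_ne hij.symm]
      · intro h
        exact absurd (Finset.mem_univ j) h
    conv_lhs => rw [h2]
    rw [map_sum]
    refine Finset.sum_congr rfl fun i _ => ?_
    rw [map_zsmul]
  refine ⟨fun i => f (Pi.single i 1), fun l hl => ?_, fun h => ?_⟩
  · rw [mFourier_one_iff, ← hfe, hf]
    have h2 : (QuotientAddGroup.mk' K) l = 0 := by
      rw [QuotientAddGroup.mk'_apply, QuotientAddGroup.eq_zero_iff]
      exact hl
    simp only [AddMonoidHom.comp_apply, h2, map_zero]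
  · rw [mFourier_one_iff, ← hfe, hf] at h
    simp only [AddMonoidHom.comp_apply, QuotientAddGroup.mk'_apply] at h
    exact hc (rc_inj h)

instance (K : AddSubgroup (Fin r → ℤ)) : CompactSpace (ann K) :=
  isCompact_iff_compactSpace.1 (isClosed_ann K).isCompact

/-- the Haar probability measure -/
noncomputable def hr (K : AddSubgroup (Fin r → ℤ)) : Measure (ann K) :=
  Measure.addHaarMeasure ⊤

instance (K : AddSubgroup (Fin r → ℤ)) : IsProbabilityMeasure (hr K) := ⟨by
  have := Measure.addHaarMeasure_self (K₀ := (⊤ : TopologicalSpace.PositiveCompacts (ann K)))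
  simpa [hr] using this⟩

theorem int_const (K : AddSubgroup (Fin r → ℤ)) {k : Fin r → ℤ} (hk : k ∈ K) :
    ∫ x : ann K, mFourier k x.1 ∂(hr K) = 1 := by
  have h : ∀ x : ann K, mFourier k x.1 = 1 := fun x => x.2 k hk
  simp_rw [h]
  simp

theorem int_zero (K : AddSubgroup (Fin r → ℤ)) {k : Fin r → ℤ} (hk : k ∉ K) :
    ∫ x : ann K, mFourier k x.1 ∂(hr K) = 0 := by
  obtain ⟨y, hy, hy'⟩ := exists_ann hk
  have h1 : ∫ x : ann K, mFourier k ((⟨y, hy⟩ + x : ann K)).1 ∂(hr K) =
      ∫ x : ann K, mFourier k x.1 ∂(hr K) := by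
    unfold hr
    exact integral_add_left_eq_self (fun x : ann K => mFourier k x.1) _
  have h2 : ∀ x : ann K, mFourier k ((⟨y, hy⟩ + x : ann K)).1 = mFourier k y * mFourier k x.1 :=
    fun x => mF_add k y x.1
  simp_rw [h2] at h1
  rw [integral_const_mul] at h1
  have h3 : (mFourier k y - 1) * ∫ x : ann K, mFourier k x.1 ∂(hr K) = 0 := by
    rw [sub_mul, h1, one_mul, sub_self]
  exact (mul_eq_zero.1 h3).resolve_left (sub_ne_zero.2 hy')

end

end Pool.Agent.Q284.CP
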